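import Pool.Agent.Helper72.HK.Fc

/-!
The semigroup `exp (-t / R)` for `R = π π†`, where `π : V → H` is an injective bounded operator with
dense range between complex Hilbert spaces.
-/

set_option autoImplicit false

open Filter Topology Set ContinuousLinearMap
open scoped Nat InnerProductSpace

namespace Pool.Agent.Helper72.HK

variable {H V : Type*} [NormedAddCommGroup H] [InnerProductSpace ℂ H] [CompleteSpace H]
  [NormedAddCommGroup V] [InnerProductSpace ℂ V] [CompleteSpace V]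

lemma self_inner {E : Type*} [NormedAddCommGroup E] [InnerProductSpace ℂ E] (z : E) :
    ((‖z‖ ^ 2 : ℝ) : ℂ) = ⟪z, z⟫_ℂ := by
  rw [inner_self_eq_norm_sq_to_K]; norm_cast

/-- `R = π π†` -/
noncomputable def Rop (π : V →L[ℂ] H) : H →L[ℂ] H := π ∘L (adjoint π)

lemma Rop_apply (π : V →L[ℂ] H) (x : H) : Rop π x = π (adjoint π x) := rfl

lemma Rop_nonneg (π : V →L[ℂ] H) : 0 ≤ Rop π :=
  (nonneg_iff_isPositive _).2 (isPositive_self_comp_adjoint π)

lemma Rop_sa (π : V →L[ℂ] H) : IsSelfAdjoint (Rop π) := IsSelfAdjoint.of_nonneg (Rop_nonneg π)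

lemma Rop_inner (π : V →L[ℂ] H) (x y : H) :
    ⟪Rop π x, y⟫_ℂ = ⟪adjoint π x, adjoint π y⟫_ℂ := by
  rw [Rop_apply, adjoint_inner_right]

lemma spec_nonneg (π : V →L[ℂ] H) {r : ℝ} (hr : r ∈ spectrum ℝ (Rop π)) : 0 ≤ r :=
  spectrum_nonneg_of_nonneg (Rop_nonneg π) hr

/-- `T_k(t) = R ^ (-k) exp (-t / R)` -/
noncomputable def Top (π : V →L[ℂ] H) (k : ℕ) (t : ℝ) : H →L[ℂ] H := cfc (ph k t) (Rop π)

lemma Top_sa (π : V →L[ℂ] H) (k : ℕ) (t : ℝ) : IsSelfAdjoint (Top π k t) := cfc_predicate _ _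

lemma Top_sym (π : V →L[ℂ] H) (k : ℕ) (t : ℝ) (x y : H) :
    ⟪Top π k t x, y⟫_ℂ = ⟪x, Top π k t y⟫_ℂ := by
  rw [← adjoint_inner_right, (Top_sa π k t).adjoint_eq]

lemma Rop_mul_Top (π : V →L[ℂ] H) (k : ℕ) {t : ℝ} (ht : 0 < t) :
    Rop π * Top π (k + 1) t = Top π k t := by
  have h := cfc_mul (fun r : ℝ => r) (ph (k + 1) t) (Rop π) continuousOn_id
    (ph_cont (k + 1) ht).continuousOn
  rw [cfc_id' ℝ (Rop π) (Rop_sa π)] at h
  rw [Top, Top, ← h]
  congr 1
  funext r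
  exact mul_ph k t r

lemma Rop_Top (π : V →L[ℂ] H) (k : ℕ) {t : ℝ} (ht : 0 < t) (x : H) :
    Rop π (Top π (k + 1) t x) = Top π k t x := by
  rw [← Rop_mul_Top π k ht]; rfl

lemma Top_norm (π : V →L[ℂ] H) (k : ℕ) {t : ℝ} (ht : 0 < t) :
    ‖Top π k t‖ ≤ (k ! : ℝ) / t ^ k := by
  refine norm_cfc_le (by positivity) fun r _ => ?_
  rw [Real.norm_of_nonneg (ph_nonneg k t r)]
  exact ph_le k ht r

lemma Top_zero_norm (π : V →L[ℂ] H) {t : ℝ} (ht : 0 < t) : ‖Top π 0 t‖ ≤ 1 := by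
  have := Top_norm π 0 ht
  simpa using this

lemma Top_comm (π : V →L[ℂ] H) (k l : ℕ) (s t : ℝ) (x : H) :
    Top π k s (Top π l t x) = Top π l t (Top π k s x) := by
  have h : Top π k s * Top π l t = Top π l t * Top π k s := cfc_commute_cfc _ _ _
  exact DFunLike.congr_fun h x

lemma Top_Rop (π : V →L[ℂ] H) (k : ℕ) {t : ℝ} (x : H) :
    Top π k t (Rop π x) = Rop π (Top π k t x) := by
  have h : Top π k t * cfc (fun r : ℝ => r) (Rop π) = cfc (fun r : ℝ => r) (Rop π) * Top π k t :=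
    cfc_commute_cfc _ _ _
  rw [cfc_id' ℝ (Rop π) (Rop_sa π)] at h
  exact DFunLike.congr_fun h x

/-- second order Taylor estimate -/
lemma Top_taylor (π : V →L[ℂ] H) {t h : ℝ} (ht : 0 < t) (hh : |h| ≤ t / 2) :
    ‖Top π 0 (t + h) - Top π 0 t + (h : ℝ) • Top π 1 t‖ ≤ 8 / t ^ 2 * h ^ 2 := by
  have ht' : 0 < t + h := by have := neg_abs_le h; linarith
  have e : Top π 0 (t + h) - Top π 0 t + (h : ℝ) • Top π 1 t =
      cfc (fun r => ph 0 (t + h) r - ph 0 t r + h * ph 1 t r) (Rop π) := by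
    rw [cfc_add (Rop π) (fun r => ph 0 (t + h) r - ph 0 t r) (fun r => h * ph 1 t r)
      (((ph_cont 0 ht').sub (ph_cont 0 ht)).continuousOn)
      ((continuous_const.mul (ph_cont 1 ht)).continuousOn),
      cfc_sub (fun r => ph 0 (t + h) r) (fun r => ph 0 t r) (Rop π)
      (ph_cont 0 ht').continuousOn (ph_cont 0 ht).continuousOn,
      cfc_const_mul h (fun r => ph 1 t r) (Rop π) (ph_cont 1 ht).continuousOn]
    rfl
  rw [e]
  exact norm_cfc_le (by positivity) fun r _ => ph_taylor ht hh r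

/-- `‖R (1 - T_0(t))‖ ≤ t` -/
lemma Rop_sub_norm (π : V →L[ℂ] H) {t : ℝ} (ht : 0 < t) :
    ‖Rop π - Top π 0 t * Rop π‖ ≤ t := by
  have e : Rop π - Top π 0 t * Rop π = cfc (fun r => r - ph 0 t r * r) (Rop π) := by
    rw [cfc_sub (fun r => r) (fun r => ph 0 t r * r) (Rop π) continuousOn_id
      ((ph_cont 0 ht).mul continuous_id).continuousOn,
      cfc_mul (fun r => ph 0 t r) (fun r => r) (Rop π) (ph_cont 0 ht).continuousOn continuousOn_id,
      cfc_id' ℝ (Rop π) (Rop_sa π)]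
    rfl
  rw [e]
  refine norm_cfc_le ht.le fun r hr => ?_
  have h0 := spec_nonneg π hr
  have h1 := mul_one_sub_ph ht.le h0
  have h2 := ph_zero_le ht.le r
  rw [Real.norm_of_nonneg]
  · linarith
  · nlinarith

lemma cfc_re_nonneg (π : V →L[ℂ] H) {F : ℝ → ℝ} (hF : ∀ r, 0 ≤ r → 0 ≤ F r) (x : H) :
    0 ≤ (⟪cfc F (Rop π) x, x⟫_ℂ).re := by
  have h : 0 ≤ cfc F (Rop π) := cfc_nonneg fun r hr => hF r (spec_nonneg π hr)
  have h1 := ((nonneg_iff_isPositive _).1 h).re_inner_nonneg_left x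
  exact h1

lemma cfc_one_sub (π : V →L[ℂ] H) {t : ℝ} (ht : 0 < t) :
    cfc (fun r => 1 - ph 0 t r) (Rop π) = 1 - Top π 0 t := by
  rw [cfc_sub (fun _ => (1 : ℝ)) (fun r => ph 0 t r) (Rop π) continuousOn_const
      (ph_cont 0 ht).continuousOn, cfc_const_one ℝ (Rop π) (Rop_sa π)]
  rfl

/-- `‖t⁻¹ (1 - T_0(t)) R ^ 2 - R‖ ≤ t` -/
lemma quot_norm (π : V →L[ℂ] H) {t : ℝ} (ht : 0 < t) :
    ‖(t⁻¹ : ℝ) • ((Rop π * Rop π) * (1 - Top π 0 t)) - Rop π‖ ≤ t := by
  have e : (t⁻¹ : ℝ) • ((Rop π * Rop π) * (1 - Top π 0 t)) - Rop π =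
      cfc (fun r => t⁻¹ * (r ^ 2 * (1 - ph 0 t r)) - r) (Rop π) := by
    have hc : Continuous (fun r => 1 - ph 0 t r) := continuous_const.sub (ph_cont 0 ht)
    have hc2 : Continuous (fun r => r ^ 2 * (1 - ph 0 t r)) := (continuous_pow 2).mul hc
    rw [cfc_sub (fun r => t⁻¹ * (r ^ 2 * (1 - ph 0 t r))) (fun r => r) (Rop π)
      (continuous_const.mul hc2).continuousOn continuousOn_id,
      cfc_const_mul t⁻¹ (fun r => r ^ 2 * (1 - ph 0 t r)) (Rop π) hc2.continuousOn,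
      cfc_mul (fun r => r ^ 2) (fun r => 1 - ph 0 t r) (Rop π) (continuous_pow 2).continuousOn
        hc.continuousOn, cfc_one_sub π ht, cfc_id' ℝ (Rop π) (Rop_sa π),
      cfc_pow_id (Rop π) 2 (Rop_sa π), pow_two]
  rw [e]
  exact norm_cfc_le ht.le fun r hr => sq_mul_one_sub_ph ht (spec_nonneg π hr)

/-- derivative in time of `T_0(t) f` -/
lemma Top_hasDerivAt (π : V →L[ℂ] H) {t : ℝ} (ht : 0 < t) (f : H) :
    HasDerivAt (fun s => Top π 0 s f) (-(Top π 1 t f)) t := by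
  rw [hasDerivAt_iff_isLittleO_nhds_zero]
  have h1 : (fun h : ℝ => Top π 0 (t + h) f - Top π 0 t f - h • -(Top π 1 t f)) =O[𝓝 0]
      fun h : ℝ => h ^ 2 := by
    refine Asymptotics.IsBigO.of_bound (8 / t ^ 2 * ‖f‖) ?_
    have : ∀ᶠ h : ℝ in 𝓝 0, |h| ≤ t / 2 := by
      have := (continuous_abs (G := ℝ)).tendsto 0
      rw [abs_zero] at this
      exact this.eventually (ge_mem_nhds (half_pos ht))
    filter_upwards [this] with h hh
    have e : Top π 0 (t + h) f - Top π 0 t f - h • -(Top π 1 t f) =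
        (Top π 0 (t + h) - Top π 0 t + (h : ℝ) • Top π 1 t) f := by
      simp [smul_neg]
    rw [e]
    calc _ ≤ ‖Top π 0 (t + h) - Top π 0 t + (h : ℝ) • Top π 1 t‖ * ‖f‖ := le_opNorm _ _
      _ ≤ (8 / t ^ 2 * h ^ 2) * ‖f‖ := mul_le_mul_of_nonneg_right (Top_taylor π ht hh)
          (norm_nonneg _)
      _ = 8 / t ^ 2 * ‖f‖ * ‖h ^ 2‖ := by
          rw [Real.norm_of_nonneg (sq_nonneg h)]; ring
  refine h1.trans_isLittleO ?_
  have := Asymptotics.isLittleO_pow_id (𝕜 := ℝ) (n := 2) (by norm_num)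
  exact this

/-- derivative in time of `e ^ t T_0(t) f` -/
lemma flow_slope (π : V →L[ℂ] H) {t : ℝ} (ht : 0 < t) (f : H) :
    Tendsto (fun h : ℝ => ((h⁻¹ : ℝ) : ℂ) • (((Real.exp (t + h) : ℝ) : ℂ) • Top π 0 (t + h) f -
      ((Real.exp t : ℝ) : ℂ) • Top π 0 t f)) (𝓝[≠] 0)
      (𝓝 (((Real.exp t : ℝ) : ℂ) • Top π 0 t f - ((Real.exp t : ℝ) : ℂ) • Top π 1 t f)) := by
  have h1 := Top_hasDerivAt π ht f
  have h2 : HasDerivAt (fun s : ℝ => Real.exp s • Top π 0 s f)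
      (Real.exp t • (-(Top π 1 t f)) + Real.exp t • Top π 0 t f) t :=
    (Real.hasDerivAt_exp t).smul h1
  have h3 := hasDerivAt_iff_tendsto_slope_zero.1 h2
  have e : ((Real.exp t : ℝ) : ℂ) • Top π 0 t f - ((Real.exp t : ℝ) : ℂ) • Top π 1 t f =
      Real.exp t • (-(Top π 1 t f)) + Real.exp t • Top π 0 t f := by
    rw [Complex.coe_smul, Complex.coe_smul, smul_neg]; abel
  rw [e]
  refine h3.congr fun h => ?_
  rw [Complex.coe_smul, Complex.coe_smul, Complex.coe_smul]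

lemma Rop_dense (π : V →L[ℂ] H) (hd : DenseRange π) : DenseRange (Rop π) := by
  have h : (LinearMap.range (Rop π).toLinearMap)ᗮ = ⊥ := by
    rw [Submodule.eq_bot_iff]
    intro x hx
    rw [Submodule.mem_orthogonal] at hx
    have h1 := hx (Rop π x) ⟨x, rfl⟩
    rw [Rop_inner, inner_self_eq_zero] at h1
    have h2 : ∀ v : V, ⟪π v, x⟫_ℂ = 0 := fun v => by
      rw [← adjoint_inner_right, h1, inner_zero_right]
    have h3 : ∀ y : H, ⟪y, x⟫_ℂ = 0 := fun y =>
      hd.induction_on y (isClosed_eq (by fun_prop) continuous_const) h2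
    exact inner_self_eq_zero.1 (h3 x)
  have h4 := (Submodule.topologicalClosure_eq_top_iff
    (K := LinearMap.range (Rop π).toLinearMap)).2 h
  have h5 := Submodule.dense_iff_topologicalClosure_eq_top.2 h4
  exact h5

/-- strong continuity at `0` -/
lemma Top_tendsto (π : V →L[ℂ] H) (hd : DenseRange π) (f : H) :
    Tendsto (fun t => Top π 0 t f) (𝓝[>] 0) (𝓝 f) := by
  rw [Metric.tendsto_nhds]
  intro ε hε
  obtain ⟨g, hg⟩ := (Metric.denseRange_iff.1 (Rop_dense π hd)) f (ε / 3) (by positivity)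
  have h1 : ∀ᶠ t : ℝ in 𝓝[>] 0, 0 < t := self_mem_nhdsWithin
  have h2 : ∀ᶠ t : ℝ in 𝓝[>] 0, t * ‖g‖ < ε / 3 := by
    have : Tendsto (fun t : ℝ => t * ‖g‖) (𝓝[>] 0) (𝓝 0) := by
      have h0 : Continuous fun t : ℝ => t * ‖g‖ := by fun_prop
      have := h0.tendsto (0 : ℝ)
      rw [zero_mul] at this
      exact this.mono_left nhdsWithin_le_nhds
    exact this.eventually (gt_mem_nhds (by positivity))
  filter_upwards [h1, h2] with t ht ht2
  have h3 : ‖Rop π g - Top π 0 t (Rop π g)‖ ≤ t * ‖g‖ := by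
    have := (Rop π - Top π 0 t * Rop π).le_opNorm g
    exact this.trans (mul_le_mul_of_nonneg_right (Rop_sub_norm π ht) (norm_nonneg _))
  have h4 : ‖Top π 0 t (f - Rop π g)‖ ≤ ‖f - Rop π g‖ := by
    refine ((Top π 0 t).le_opNorm _).trans ?_
    exact mul_le_of_le_one_left (norm_nonneg _) (Top_zero_norm π ht)
  rw [dist_eq_norm] at hg ⊢
  have e : Top π 0 t f - f = Top π 0 t (f - Rop π g) - (Rop π g - Top π 0 t (Rop π g)) -
      (f - Rop π g) := by
    rw [map_sub]; abel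
  rw [e]
  calc _ ≤ ‖Top π 0 t (f - Rop π g)‖ + ‖Rop π g - Top π 0 t (Rop π g)‖ + ‖f - Rop π g‖ :=
        (norm_sub_le _ _).trans (add_le_add_left (norm_sub_le _ _) _)
    _ < ε := by linarith

/-- (D): `⟪π v - T_0(t) π v, π v⟫ ≤ t ‖v‖ ^ 2` -/
lemma form_le (π : V →L[ℂ] H) {t : ℝ} (ht : 0 < t) (v : V) :
    (⟪π v - Top π 0 t (π v), π v⟫_ℂ).re ≤ t * ‖v‖ ^ 2 := by
  set z := π v - Top π 0 t (π v) with hz
  set q := (⟪z, π v⟫_ℂ).re with hq
  have hc : Continuous (fun r => 1 - ph 0 t r) := continuous_const.sub (ph_cont 0 ht)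
  have hz' : z = cfc (fun r => 1 - ph 0 t r) (Rop π) (π v) := by
    rw [cfc_one_sub π ht]; rfl
  have h1 : ‖adjoint π z‖ ^ 2 ≤ t * q := by
    have e : (⟪Rop π z, z⟫_ℂ).re = ‖adjoint π z‖ ^ 2 := by
      rw [Rop_inner, inner_self_eq_norm_sq_to_K]
      norm_cast
    have h2 := cfc_re_nonneg π (F := fun r => t * (1 - ph 0 t r) - (1 - ph 0 t r) *
      (r * (1 - ph 0 t r))) (fun r hr => by
        have h3 := ph_zero_le ht.le r
        have h4 := mul_one_sub_ph ht.le hr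
        nlinarith) (π v)
    have e2 : cfc (fun r => t * (1 - ph 0 t r) - (1 - ph 0 t r) * (r * (1 - ph 0 t r))) (Rop π) =
        (t : ℝ) • (1 - Top π 0 t) - (1 - Top π 0 t) * (Rop π * (1 - Top π 0 t)) := by
      rw [cfc_sub (fun r => t * (1 - ph 0 t r)) (fun r => (1 - ph 0 t r) * (r * (1 - ph 0 t r)))
        (Rop π) (continuous_const.mul hc).continuousOn
        (hc.mul (continuous_id.mul hc)).continuousOn,
        cfc_const_mul t (fun r => 1 - ph 0 t r) (Rop π) hc.continuousOn,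
        cfc_mul (fun r => 1 - ph 0 t r) (fun r => r * (1 - ph 0 t r)) (Rop π) hc.continuousOn
          (continuous_id.mul hc).continuousOn,
        cfc_mul (fun r => r) (fun r => 1 - ph 0 t r) (Rop π) continuousOn_id hc.continuousOn,
        cfc_one_sub π ht, cfc_id' ℝ (Rop π) (Rop_sa π)]
    rw [e2] at h2
    have e3 : ((t : ℝ) • (1 - Top π 0 t) - (1 - Top π 0 t) * (Rop π * (1 - Top π 0 t))) (π v) =
        (t : ℝ) • z - (Rop π z - Top π 0 t (Rop π z)) := rfl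
    rw [e3, inner_sub_left, inner_sub_left, Top_sym] at h2
    have e4 : ⟪(t : ℝ) • z, π v⟫_ℂ = (t : ℂ) * ⟪z, π v⟫_ℂ := by
      rw [← Complex.coe_smul, inner_smul_left, Complex.conj_ofReal]
    have e5 : ⟪Rop π z, π v⟫_ℂ - ⟪Rop π z, Top π 0 t (π v)⟫_ℂ = ⟪Rop π z, z⟫_ℂ := by
      rw [← inner_sub_right]
    rw [e4, e5, Complex.sub_re, Complex.re_ofReal_mul, e] at h2
    linarith
  have h2 : q ≤ ‖adjoint π z‖ * ‖v‖ := by
    rw [hq, ← adjoint_inner_left]
    exact (Complex.re_le_norm _).trans (norm_inner_le_norm _ _)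
  have h3 : 0 ≤ q := by
    have := cfc_re_nonneg π (F := fun r => 1 - ph 0 t r)
      (fun r _ => sub_nonneg.2 (ph_zero_le ht.le r)) (π v)
    rwa [← hz'] at this
  by_contra hlt
  push Not at hlt
  have hq0 : 0 < q := lt_of_le_of_lt (by positivity) hlt
  have h4 : q ^ 2 ≤ ‖adjoint π z‖ ^ 2 * ‖v‖ ^ 2 := by
    rw [← mul_pow]; exact pow_le_pow_left₀ h3 h2 2
  have h5 : q ^ 2 ≤ t * q * ‖v‖ ^ 2 := h4.trans (mul_le_mul_of_nonneg_right h1 (sq_nonneg _))
  nlinarith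

lemma adj_Rop_dense (π : V →L[ℂ] H) (hd : DenseRange π) (hi : Function.Injective π) :
    DenseRange (fun z => adjoint π (Rop π z)) := by
  have h1 : DenseRange (adjoint π) := by
    have h : (LinearMap.range (adjoint π).toLinearMap)ᗮ = ⊥ := by
      rw [Submodule.eq_bot_iff]
      intro x hx
      rw [Submodule.mem_orthogonal] at hx
      have h1 := hx (adjoint π (π x)) ⟨π x, rfl⟩
      rw [adjoint_inner_left, inner_self_eq_zero] at h1
      exact hi (by rw [h1, map_zero])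
    exact Submodule.dense_iff_topologicalClosure_eq_top.2
      ((Submodule.topologicalClosure_eq_top_iff).2 h)
  exact h1.comp (Rop_dense π hd) (adjoint π).continuous

/-- (E) -/
lemma norm_le_of_form (π : V →L[ℂ] H) (hd : DenseRange π) (hi : Function.Injective π) (v : V)
    {K : ℝ} (hK : ∀ᶠ t : ℝ in 𝓝[>] 0, (⟪π v - Top π 0 t (π v), π v⟫_ℂ).re ≤ t * K) :
    ‖v‖ ^ 2 ≤ K := by
  have key : ∀ w : V, 0 ≤ K - 2 * (⟪w, v⟫_ℂ).re + ‖w‖ ^ 2 := by
    intro w
    refine (adj_Rop_dense π hd hi).induction_on (p := fun w : V =>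
      0 ≤ K - 2 * (⟪w, v⟫_ℂ).re + ‖w‖ ^ 2) w ?_ ?_
    · exact isClosed_le continuous_const (by fun_prop)
    · intro z
      set w := adjoint π (Rop π z) with hw
      have hD : Tendsto (fun t : ℝ => ((t⁻¹ : ℝ) • ((Rop π * Rop π) * (1 - Top π 0 t))) z)
          (𝓝[>] 0) (𝓝 (Rop π z)) := by
        rw [tendsto_iff_norm_sub_tendsto_zero]
        have h0 : Tendsto (fun t : ℝ => t * ‖z‖) (𝓝[>] 0) (𝓝 0) := by
          have h0 : Continuous fun t : ℝ => t * ‖z‖ := by fun_prop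
          have := h0.tendsto (0 : ℝ)
          rw [zero_mul] at this
          exact this.mono_left nhdsWithin_le_nhds
        refine squeeze_zero' (Eventually.of_forall fun _ => norm_nonneg _) ?_ h0
        filter_upwards [self_mem_nhdsWithin] with t ht
        have := ((t⁻¹ : ℝ) • ((Rop π * Rop π) * (1 - Top π 0 t)) - Rop π).le_opNorm z
        exact this.trans (mul_le_mul_of_nonneg_right (quot_norm π ht) (norm_nonneg _))
      have hw2 : ⟪Rop π z, π w⟫_ℂ = ⟪w, w⟫_ℂ := by rw [← adjoint_inner_left]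
      have hw3 : ⟪Rop π z, π v⟫_ℂ = ⟪w, v⟫_ℂ := by rw [← adjoint_inner_left]
      have hlim : Tendsto (fun t : ℝ =>
          K - 2 * (⟪((t⁻¹ : ℝ) • ((Rop π * Rop π) * (1 - Top π 0 t))) z, π v⟫_ℂ).re +
          (⟪((t⁻¹ : ℝ) • ((Rop π * Rop π) * (1 - Top π 0 t))) z, π w⟫_ℂ).re) (𝓝[>] 0)
          (𝓝 (K - 2 * (⟪w, v⟫_ℂ).re + ‖w‖ ^ 2)) := by
        have a1 := Complex.continuous_re.continuousAt.tendsto.comp
          (hD.inner (tendsto_const_nhds (x := π v)))
        have a2 := Complex.continuous_re.continuousAt.tendsto.comp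
          (hD.inner (tendsto_const_nhds (x := π w)))
        rw [hw3] at a1
        rw [hw2] at a2
        have e : (⟪w, w⟫_ℂ).re = ‖w‖ ^ 2 := by
          rw [inner_self_eq_norm_sq_to_K]; norm_cast
        rw [e] at a2
        exact (tendsto_const_nhds.sub (a1.const_mul 2)).add a2
      refine ge_of_tendsto hlim ?_
      filter_upwards [hK, self_mem_nhdsWithin] with t hKt ht
      have ht : 0 < t := ht
      -- positivity of `1 - T_0(t)` on `π v - π w`
      have hpos := cfc_re_nonneg π (F := fun r => 1 - ph 0 t r)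
        (fun r _ => sub_nonneg.2 (ph_zero_le ht.le r)) (π v - π w)
      rw [cfc_one_sub π ht] at hpos
      set D : H →L[ℂ] H := 1 - Top π 0 t with hDdef
      have hDs : ∀ x y : H, ⟪D x, y⟫_ℂ = ⟪x, D y⟫_ℂ := by
        intro x y
        have e1 : D x = x - Top π 0 t x := rfl
        have e2 : D y = y - Top π 0 t y := rfl
        rw [e1, e2, inner_sub_left, inner_sub_right, Top_sym]
      have hDw : ((t⁻¹ : ℝ) • ((Rop π * Rop π) * D)) z = (t⁻¹ : ℝ) • D (π w) := by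
        have e1 : ((t⁻¹ : ℝ) • ((Rop π * Rop π) * D)) z = (t⁻¹ : ℝ) • Rop π (Rop π (D z)) := rfl
        have e2 : D (π w) = π w - Top π 0 t (π w) := rfl
        have e3 : π w = Rop π (Rop π z) := rfl
        have e4 : D z = z - Top π 0 t z := rfl
        rw [e1, e2, e3, e4, map_sub, map_sub, Top_Rop, Top_Rop]
      rw [hDw]
      have hexp : (⟪D (π v - π w), π v - π w⟫_ℂ).re = (⟪D (π v), π v⟫_ℂ).re -
          2 * (⟪D (π w), π v⟫_ℂ).re + (⟪D (π w), π w⟫_ℂ).re := by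
        have e1 : (⟪D (π v), π w⟫_ℂ).re = (⟪D (π w), π v⟫_ℂ).re := by
          rw [hDs, ← inner_conj_symm, Complex.conj_re]
        rw [map_sub, inner_sub_left, inner_sub_right, inner_sub_right, Complex.sub_re,
          Complex.sub_re, Complex.sub_re, e1]
        ring
      have hsm : ∀ x y : H, (⟪(t⁻¹ : ℝ) • x, y⟫_ℂ).re = t⁻¹ * (⟪x, y⟫_ℂ).re := by
        intro x y
        rw [← Complex.coe_smul, inner_smul_left, Complex.conj_ofReal, Complex.re_ofReal_mul]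
      rw [hsm, hsm]
      have e5 : D (π v) = π v - Top π 0 t (π v) := rfl
      rw [hexp, e5] at hpos
      have h6 : t⁻¹ * (t * K) = K := by field_simp
      have h7 : 0 ≤ t⁻¹ * ((t * K) - 2 * (⟪D (π w), π v⟫_ℂ).re + (⟪D (π w), π w⟫_ℂ).re) :=
        mul_nonneg (inv_nonneg.2 ht.le) (by linarith)
      nlinarith
  have h1 := key v
  have e : (⟪v, v⟫_ℂ).re = ‖v‖ ^ 2 := by
    rw [inner_self_eq_norm_sq_to_K]; norm_cast
  rw [e] at h1
  linarith

end Pool.Agent.Helper72.HK
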