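import Pool.Graph.R_pool_sql_team_seeded_63374d34.N288.MM.Defs

/-!
# Heat flow and heat kernel of a metric measure space
-/

set_option autoImplicit false

open MeasureTheory Filter Topology Set Metric
open scoped ENNReal NNReal
open Pool.Agent.N288.MM

namespace Pool.Agent.Helper72.HK

/-- `u` is the heat flow starting at `f`, that is the gradient flow of the Cheeger energy in
`L²(m)`: the functions `u t` (`t > 0`) are in `L²(m)`, `u t → f` in `L²(m)` as `t ↓ 0`, and for every
`t > 0` the curve `u` has an `L²(m)`-derivative `v` at `t`, `Ch (u t) < ∞` and `- v` belongs to the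
subdifferential of `Ch` at `u t`: `Ch (u t) - ∫ v (g - u t) dm ≤ Ch g` for all `g ∈ L²(m)`. -/
structure IsHeatFlow (S : Space) (f : S.X → ℝ) (u : ℝ → S.X → ℝ) : Prop where
  memLp : ∀ t, 0 < t → MemLp (u t) 2 S.m
  init : Tendsto (fun t => eLpNorm (fun x => u t x - f x) 2 S.m) (𝓝[>] 0) (𝓝 0)
  flow : ∀ t, 0 < t → ∃ v : S.X → ℝ, MemLp v 2 S.m ∧
    Tendsto (fun h => eLpNorm (fun x => (u (t + h) x - u t x) / h - v x) 2 S.m) (𝓝[≠] 0) (𝓝 0) ∧
    Ch S (u t) < ∞ ∧
    ∀ g : S.X → ℝ, MemLp g 2 S.m → Ch S g < ∞ →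
      (Ch S (u t)).toReal - ∫ x, v x * (g x - u t x) ∂S.m ≤ (Ch S g).toReal

/-- `p` is the (continuous) heat kernel of `S`: for every `t > 0` the function `p t` is continuous
on `X × X`, and for every `f ∈ L²(m)` the functions `x ↦ ∫ p t x y f(y) dm(y)` are the heat flow
starting at `f`. -/
structure IsHeatKernel (S : Space) (p : ℝ → S.X → S.X → ℝ) : Prop where
  cont : ∀ t, 0 < t → Continuous fun z : S.X × S.X => p t z.1 z.2
  int : ∀ f : S.X → ℝ, MemLp f 2 S.m → ∀ t, 0 < t → ∀ x, Integrable (fun y => p t x y * f y) S.m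
  flow : ∀ f : S.X → ℝ, MemLp f 2 S.m → IsHeatFlow S f fun t x => ∫ y, p t x y * f y ∂S.m

end Pool.Agent.Helper72.HK
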