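import Mathlib

/-!
The functions `exp (-t / r) / r ^ k` and the functions of a positive operator defined by them.
-/

set_option autoImplicit false

open Filter Topology Set
open scoped Nat

namespace Pool.Agent.Helper72.HK

/-- `exp (-t / r) / r ^ k` for `r > 0`, and `0` for `r ≤ 0` -/
noncomputable def ph (k : ℕ) (t r : ℝ) : ℝ := if 0 < r then Real.exp (-(t / r)) / r ^ k else 0

lemma ph_pos_eq (k : ℕ) (t : ℝ) {r : ℝ} (hr : 0 < r) :
    ph k t r = Real.exp (-(t / r)) / r ^ k := if_pos hr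

lemma ph_nonpos (k : ℕ) (t : ℝ) {r : ℝ} (hr : r ≤ 0) : ph k t r = 0 := if_neg (not_lt.2 hr)

lemma ph_nonneg (k : ℕ) (t r : ℝ) : 0 ≤ ph k t r := by
  unfold ph
  split_ifs with h
  · positivity
  · exact le_rfl

lemma exp_neg_le (k : ℕ) {x : ℝ} (hx : 0 < x) : Real.exp (-x) ≤ (k ! : ℝ) / x ^ k := by
  have h := Real.pow_div_factorial_le_exp x hx.le k
  rw [Real.exp_neg, le_div_iff₀ (by positivity), inv_mul_le_iff₀ (Real.exp_pos x)]
  rwa [div_le_iff₀ (by positivity)] at h

lemma ph_le (k : ℕ) {t : ℝ} (ht : 0 < t) (r : ℝ) : ph k t r ≤ (k ! : ℝ) / t ^ k := by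
  unfold ph
  split_ifs with h
  · have h1 := exp_neg_le k (div_pos ht h)
    rw [div_pow] at h1
    rw [div_le_div_iff₀ (by positivity) (by positivity)]
    rw [div_div_eq_mul_div, le_div_iff₀ (by positivity)] at h1
    linarith
  · positivity

lemma ph_le_mul (k : ℕ) {t : ℝ} (ht : 0 < t) {r : ℝ} (hr : 0 ≤ r) :
    ph k t r ≤ ((k + 1) ! : ℝ) / t ^ (k + 1) * r := by
  rcases hr.eq_or_lt with h | h
  · rw [← h, ph_nonpos k t le_rfl, mul_zero]
  · have h1 := ph_le (k + 1) ht r
    rw [ph_pos_eq _ _ h] at h1 ⊢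
    calc Real.exp (-(t / r)) / r ^ k = Real.exp (-(t / r)) / r ^ (k + 1) * r := by
          rw [pow_succ]
          field_simp
      _ ≤ _ := mul_le_mul_of_nonneg_right (by exact_mod_cast h1) h.le

lemma ph_cont (k : ℕ) {t : ℝ} (ht : 0 < t) : Continuous (ph k t) := by
  rw [continuous_iff_continuousAt]
  intro r
  rcases lt_trichotomy r 0 with h | h | h
  · have : ph k t =ᶠ[𝓝 r] fun _ => 0 := by
      filter_upwards [gt_mem_nhds h] with s hs using ph_nonpos k t hs.le
    exact continuousAt_const.congr this.symm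
  · subst h
    unfold ContinuousAt
    rw [ph_nonpos k t le_rfl]
    have hz : Tendsto (fun r : ℝ => ((k + 1) ! : ℝ) / t ^ (k + 1) * |r|) (𝓝 0) (𝓝 0) := by
      have := (continuous_abs (G := ℝ)).tendsto 0 |>.const_mul (((k + 1) ! : ℝ) / t ^ (k + 1))
      simpa using this
    refine squeeze_zero (fun r => ph_nonneg k t r) (fun r => ?_) hz
    rcases le_or_gt 0 r with hr | hr
    · rw [abs_of_nonneg hr]; exact ph_le_mul k ht hr
    · rw [ph_nonpos k t hr.le]; positivity
  · have : ph k t =ᶠ[𝓝 r] fun s => Real.exp (-(t / s)) / s ^ k := by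
      filter_upwards [lt_mem_nhds h] with s hs using ph_pos_eq k t hs
    refine ContinuousAt.congr ?_ this.symm
    have hr : r ≠ 0 := h.ne'
    have hrk : r ^ k ≠ 0 := pow_ne_zero _ hr
    exact ((Real.continuous_exp.continuousAt).comp
      ((continuousAt_const.div continuousAt_id hr).neg)).div (continuousAt_id.pow k) hrk

lemma mul_ph (k : ℕ) (t r : ℝ) : r * ph (k + 1) t r = ph k t r := by
  rcases le_or_gt r 0 with h | h
  · rw [ph_nonpos _ _ h, ph_nonpos _ _ h, mul_zero]
  · rw [ph_pos_eq _ _ h, ph_pos_eq _ _ h, pow_succ]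
    field_simp

lemma ph_mul (s t r : ℝ) : ph 0 s r * ph 0 t r = ph 0 (s + t) r := by
  rcases le_or_gt r 0 with h | h
  · rw [ph_nonpos _ _ h, ph_nonpos _ _ h, ph_nonpos _ _ h, mul_zero]
  · rw [ph_pos_eq _ _ h, ph_pos_eq _ _ h, ph_pos_eq _ _ h]
    simp only [pow_zero, div_one]
    rw [← Real.exp_add]
    congr 1
    ring

lemma ph_zero_le {t : ℝ} (ht : 0 ≤ t) (r : ℝ) : ph 0 t r ≤ 1 := by
  unfold ph
  split_ifs with h
  · simp only [pow_zero, div_one]
    exact Real.exp_le_one_iff.2 (neg_nonpos.2 (by positivity))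
  · exact zero_le_one

/-- `r (1 - exp (-t / r)) ≤ t` -/
lemma mul_one_sub_ph {t r : ℝ} (ht : 0 ≤ t) (hr : 0 ≤ r) : r * (1 - ph 0 t r) ≤ t := by
  rcases hr.eq_or_lt with h | h
  · rw [← h, zero_mul]; exact ht
  · rw [ph_pos_eq _ _ h]
    simp only [pow_zero, div_one]
    have h1 := Real.add_one_le_exp (-(t / r))
    have h2 : r * (1 - Real.exp (-(t / r))) ≤ r * (t / r) := by
      refine mul_le_mul_of_nonneg_left ?_ h.le
      linarith
    calc _ ≤ r * (t / r) := h2
      _ = t := by field_simp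

/-- `|exp (-y) - 1 + y| ≤ y ^ 2 / 2 * exp |y|` -/
lemma exp_taylor (y : ℝ) : |Real.exp (-y) - 1 + y| ≤ y ^ 2 * Real.exp |y| := by
  have h : |Real.exp (-y) - 1 - (-y)| ≤ |(-y)| ^ 2 * Real.exp |(-y)| := by
    rcases le_or_gt |y| 1 with h1 | h1
    · have h2 := Real.abs_exp_sub_one_sub_id_le (x := -y) (by rwa [abs_neg])
      rw [abs_neg, sq_abs]
      rw [neg_sq] at h2
      have : y ^ 2 * 1 ≤ y ^ 2 * Real.exp |y| :=
        mul_le_mul_of_nonneg_left (Real.one_le_exp (abs_nonneg y)) (sq_nonneg y)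
      linarith
    · rw [abs_neg, sq_abs]
      have h3 : 1 < y ^ 2 := by
        rw [← sq_abs]; nlinarith [abs_nonneg y]
      have h4 : Real.exp (-y) ≤ Real.exp |y| := Real.exp_le_exp.2 (neg_le_abs y)
      have h5 : |y| + 1 ≤ Real.exp |y| := Real.add_one_le_exp _
      have h6 := Real.exp_pos (-y)
      have h7 : Real.exp |y| ≤ y ^ 2 * Real.exp |y| := by
        nlinarith [Real.exp_pos |y|]
      rw [abs_le]
      constructor
      · have := neg_abs_le y
        have h8 := le_abs_self y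
        nlinarith
      · rcases le_or_gt 0 y with h0 | h0
        · rw [abs_of_nonneg h0] at h5 h7 h4 h1 ⊢
          have : Real.exp (-y) ≤ 1 := Real.exp_le_one_iff.2 (by linarith)
          have : y ≤ y ^ 2 * Real.exp y := by nlinarith [Real.exp_pos y]
          linarith
        · have := abs_of_neg h0
          linarith
  have e : Real.exp (-y) - 1 + y = Real.exp (-y) - 1 - (-y) := by ring
  rw [e]
  rwa [abs_neg, sq_abs] at h

/-- second order Taylor estimate in `t`, uniform in `r` -/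
lemma ph_taylor {t h : ℝ} (ht : 0 < t) (hh : |h| ≤ t / 2) (r : ℝ) :
    |ph 0 (t + h) r - ph 0 t r + h * ph 1 t r| ≤ 8 / t ^ 2 * h ^ 2 := by
  rcases le_or_gt r 0 with hr | hr
  · rw [ph_nonpos _ _ hr, ph_nonpos _ _ hr, ph_nonpos _ _ hr]
    simp only [sub_self, mul_zero, add_zero, abs_zero]
    positivity
  · rw [ph_pos_eq _ _ hr, ph_pos_eq _ _ hr, ph_pos_eq _ _ hr]
    simp only [pow_zero, div_one, pow_one]
    have e1 : Real.exp (-((t + h) / r)) = Real.exp (-(t / r)) * Real.exp (-(h / r)) := by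
      rw [← Real.exp_add]; congr 1; ring
    have e2 : Real.exp (-((t + h) / r)) - Real.exp (-(t / r)) + h * (Real.exp (-(t / r)) / r) =
        Real.exp (-(t / r)) * (Real.exp (-(h / r)) - 1 + h / r) := by
      rw [e1]; ring
    rw [e2, abs_mul, abs_of_pos (Real.exp_pos _)]
    have h1 := exp_taylor (h / r)
    have h2 : Real.exp |h / r| ≤ Real.exp (t / 2 / r) := by
      rw [Real.exp_le_exp, abs_div, abs_of_pos hr]
      exact div_le_div_of_nonneg_right hh hr.le
    have h3 : Real.exp (-(t / r)) * ((h / r) ^ 2 * Real.exp (t / 2 / r)) =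
        h ^ 2 * (Real.exp (-(t / 2 / r)) / r ^ 2) := by
      have : Real.exp (-(t / r)) * Real.exp (t / 2 / r) = Real.exp (-(t / 2 / r)) := by
        rw [← Real.exp_add]; congr 1; ring
      rw [← this]; ring
    have h4 : Real.exp (-(t / 2 / r)) / r ^ 2 ≤ 8 / t ^ 2 := by
      have := ph_le 2 (half_pos ht) r
      rw [ph_pos_eq _ _ hr] at this
      refine this.trans (le_of_eq ?_)
      norm_num [Nat.factorial]
      field_simp
      norm_num
    calc Real.exp (-(t / r)) * |Real.exp (-(h / r)) - 1 + h / r|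
        ≤ Real.exp (-(t / r)) * ((h / r) ^ 2 * Real.exp (t / 2 / r)) := by
          refine mul_le_mul_of_nonneg_left (h1.trans ?_) (Real.exp_pos _).le
          exact mul_le_mul_of_nonneg_left h2 (sq_nonneg _)
      _ = h ^ 2 * (Real.exp (-(t / 2 / r)) / r ^ 2) := h3
      _ ≤ h ^ 2 * (8 / t ^ 2) := mul_le_mul_of_nonneg_left h4 (sq_nonneg _)
      _ = 8 / t ^ 2 * h ^ 2 := mul_comm _ _

/-- `|r ^ 2 (1 - exp (-t / r)) / t - r| ≤ t` -/
lemma sq_mul_one_sub_ph {t r : ℝ} (ht : 0 < t) (hr : 0 ≤ r) :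
    |t⁻¹ * (r ^ 2 * (1 - ph 0 t r)) - r| ≤ t := by
  rcases hr.eq_or_lt with h | h
  · rw [← h]; simp [ht.le]
  · rw [ph_pos_eq _ _ h]
    simp only [pow_zero, div_one]
    have hy : 0 < t / r := div_pos ht h
    have h1 : Real.exp (-(t / r)) ≤ 1 - t / r + (t / r) ^ 2 := by
      rcases le_or_gt (t / r) 1 with h2 | h2
      · have h3 := Real.abs_exp_sub_one_sub_id_le (x := -(t / r))
          (by rwa [abs_neg, abs_of_pos hy])
        have h4 := (abs_le.1 h3).2
        rw [neg_sq] at h4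
        linarith
      · have : Real.exp (-(t / r)) ≤ 1 := Real.exp_le_one_iff.2 (by linarith)
        nlinarith
    have h2 := Real.add_one_le_exp (-(t / r))
    have e : t⁻¹ * (r ^ 2 * (1 - Real.exp (-(t / r)))) - r =
        -(t⁻¹ * r ^ 2 * (Real.exp (-(t / r)) - 1 + t / r)) := by
      field_simp
      ring
    rw [e, abs_neg, abs_of_nonneg (mul_nonneg (by positivity) (by linarith))]
    calc t⁻¹ * r ^ 2 * (Real.exp (-(t / r)) - 1 + t / r) ≤ t⁻¹ * r ^ 2 * (t / r) ^ 2 := by
          refine mul_le_mul_of_nonneg_left (by linarith) (by positivity)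
      _ = t := by field_simp

end Pool.Agent.Helper72.HK
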