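import Pool.Agent.Helper72.HK.Sob2
import Pool.Agent.Helper72.HK.Defs

/-!
The heat kernel of a weighted line.
-/

set_option autoImplicit false

open MeasureTheory Filter Topology Set Metric
open scoped ENNReal NNReal InnerProductSpace
open Pool.Agent.N288.MM
open ContinuousLinearMap (adjoint adjoint_inner_left adjoint_inner_right)

namespace Pool.Agent.Helper72.HK

variable {w : ℝ → ℝ}

/-- the heat kernel -/
noncomputable def pk (hw : Weight w) (t x y : ℝ) : ℝ :=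
  Real.exp t * (⟪pr w hw (ee hw y), Top (pr w hw) 2 t (pr w hw (ee hw x))⟫_ℂ).re

lemma pk_cont (hw : Weight w) (t : ℝ) : Continuous fun z : ℝ × ℝ => pk hw t z.1 z.2 := by
  unfold pk
  have h1 : Continuous fun z : ℝ × ℝ => pr w hw (ee hw z.2) :=
    (pr w hw).continuous.comp ((ee_cont hw).comp continuous_snd)
  have h2 : Continuous fun z : ℝ × ℝ => Top (pr w hw) 2 t (pr w hw (ee hw z.1)) :=
    (Top (pr w hw) 2 t).continuous.comp
      ((pr w hw).continuous.comp ((ee_cont hw).comp continuous_fst))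
  exact continuous_const.mul (Complex.continuous_re.comp (h1.inner h2))

lemma pk_cont_right (hw : Weight w) (t x : ℝ) : Continuous fun y : ℝ => pk hw t x y := by
  unfold pk
  have h1 : Continuous fun y : ℝ => pr w hw (ee hw y) :=
    (pr w hw).continuous.comp (ee_cont hw)
  exact continuous_const.mul (Complex.continuous_re.comp (h1.inner continuous_const))

lemma pr_norm_le (hw : Weight w) (v : VV w hw) : ‖pr w hw v‖ ≤ ‖v‖ := norm_fst_le hw v

lemma pk_bound (hw : Weight w) {t : ℝ} (ht : 0 < t) (x y : ℝ) :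
    |pk hw t x y| ≤ Real.exp t * (32 / t ^ 2) := by
  unfold pk
  rw [abs_mul, abs_of_pos (Real.exp_pos t)]
  refine mul_le_mul_of_nonneg_left ?_ (Real.exp_pos t).le
  have h1 : ∀ x, ‖pr w hw (ee hw x)‖ ≤ 4 := fun x => (pr_norm_le hw _).trans (ee_norm hw x)
  have h2 : ‖Top (pr w hw) 2 t (pr w hw (ee hw x))‖ ≤ 2 / t ^ 2 * 4 := by
    refine ((Top (pr w hw) 2 t).le_opNorm _).trans ?_
    have h3 := Top_norm (pr w hw) 2 ht
    rw [show ((Nat.factorial 2 : ℕ) : ℝ) = 2 by norm_num [Nat.factorial]] at h3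
    exact mul_le_mul h3 (h1 x) (norm_nonneg _) (by positivity)
  calc |(⟪pr w hw (ee hw y), Top (pr w hw) 2 t (pr w hw (ee hw x))⟫_ℂ).re|
      ≤ ‖⟪pr w hw (ee hw y), Top (pr w hw) 2 t (pr w hw (ee hw x))⟫_ℂ‖ := Complex.abs_re_le_norm _
    _ ≤ ‖pr w hw (ee hw y)‖ * ‖Top (pr w hw) 2 t (pr w hw (ee hw x))‖ := norm_inner_le_norm _ _
    _ ≤ 4 * (2 / t ^ 2 * 4) := mul_le_mul (h1 y) h2 (norm_nonneg _) (by norm_num)
    _ = 32 / t ^ 2 := by ring

lemma re_inner_cL {f : ℝ → ℝ} (hf : MemLp f 2 (mu w)) (F : HH w) :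
    Integrable (fun x => f x * (F x).re) (mu w) ∧
      (⟪cL f hf, F⟫_ℂ).re = ∫ x, f x * (F x).re ∂(mu w) := by
  have h1 : Integrable (fun x => ⟪cL f hf x, F x⟫_ℂ) (mu w) := L2.integrable_inner _ _
  have h2 : (fun x => (⟪cL f hf x, F x⟫_ℂ).re) =ᵐ[mu w] fun x => f x * (F x).re := by
    filter_upwards [cL_ae f hf] with x hx
    rw [hx]
    simp [mul_comm]
  constructor
  · exact h1.re.congr h2
  · rw [inner_eq]
    have h3 := integral_re h1
    have h4 : (∫ x, ⟪cL f hf x, F x⟫_ℂ ∂(mu w)).re = ∫ x, (⟪cL f hf x, F x⟫_ℂ).re ∂(mu w) :=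
      h3.symm
    rw [h4]
    exact integral_congr_ae h2

lemma re_inner_swap {E : Type*} [NormedAddCommGroup E] [InnerProductSpace ℂ E] (x y : E) :
    (⟪x, y⟫_ℂ).re = (⟪y, x⟫_ℂ).re := by
  rw [← inner_conj_symm, Complex.conj_re]

/-- `K_x = T_1(t) π e_x` has the representative `y ↦ ⟪π e_y, T_2(t) π e_x⟫` -/
lemma K_ae (hw : Weight w) {t : ℝ} (ht : 0 < t) (x : ℝ) :
    Top (pr w hw) 1 t (pr w hw (ee hw x)) =ᵐ[mu w]
      fun y => ⟪pr w hw (ee hw y), Top (pr w hw) 2 t (pr w hw (ee hw x))⟫_ℂ := by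
  set z := Top (pr w hw) 2 t (pr w hw (ee hw x)) with hz
  have h1 : Top (pr w hw) 1 t (pr w hw (ee hw x)) = pr w hw (adjoint (pr w hw) z) := by
    rw [← Rop_Top (pr w hw) 1 ht]; rfl
  have h2 := rep_ae hw (adjoint (pr w hw) z)
  rw [h1]
  filter_upwards [h2] with y hy
  refine hy.trans ?_
  rw [← inner_ee]
  exact adjoint_inner_right (pr w hw) (ee hw y) z

/-- the flow at time `t`, as an element of the Sobolev space -/
noncomputable def Vt (hw : Weight w) (t : ℝ) (F : HH w) : VV w hw :=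
  adjoint (pr w hw) (((Real.exp t : ℝ) : ℂ) • Top (pr w hw) 1 t F)

lemma pr_Vt (hw : Weight w) {t : ℝ} (ht : 0 < t) (F : HH w) :
    pr w hw (Vt hw t F) = ((Real.exp t : ℝ) : ℂ) • Top (pr w hw) 0 t F := by
  unfold Vt
  rw [map_smul, map_smul, ← Rop_Top (pr w hw) 0 ht]; rfl

lemma pk_int (hw : Weight w) {f : ℝ → ℝ} (hf : MemLp f 2 (mu w)) {t : ℝ} (ht : 0 < t) (x : ℝ) :
    Integrable (fun y => pk hw t x y * f y) (mu w) ∧
      ∫ y, pk hw t x y * f y ∂(mu w) = (rep hw (Vt hw t (cL f hf)) x).re := by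
  obtain ⟨h1, h2⟩ := re_inner_cL hf (Top (pr w hw) 1 t (pr w hw (ee hw x)))
  have h3 : (fun y => Real.exp t * (f y * (Top (pr w hw) 1 t (pr w hw (ee hw x)) y).re))
      =ᵐ[mu w] fun y => pk hw t x y * f y := by
    filter_upwards [K_ae hw ht x] with y hy
    rw [hy]
    unfold pk
    ring
  constructor
  · exact (h1.const_mul (Real.exp t)).congr h3
  · rw [← integral_congr_ae h3, integral_const_mul, ← h2, re_inner_swap, Top_sym]
    have h4 : rep hw (Vt hw t (cL f hf)) x =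
        ((Real.exp t : ℝ) : ℂ) * ⟪pr w hw (ee hw x), Top (pr w hw) 1 t (cL f hf)⟫_ℂ := by
      rw [← inner_ee]
      unfold Vt
      refine (adjoint_inner_right (pr w hw) (ee hw x) _).trans ?_
      exact inner_smul_right _ _ _
    rw [h4, Complex.re_ofReal_mul]

/-- the flow -/
noncomputable def fl (hw : Weight w) (f : ℝ → ℝ) (t x : ℝ) : ℝ := ∫ y, pk hw t x y * f y ∂(mu w)

lemma fl_ae (hw : Weight w) {f : ℝ → ℝ} (hf : MemLp f 2 (mu w)) {t : ℝ} (ht : 0 < t) :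
    (fun x => ((((Real.exp t : ℝ) : ℂ) • Top (pr w hw) 0 t (cL f hf) : HH w) x).re) =ᵐ[mu w]
      fl hw f t := by
  rw [← pr_Vt hw ht]
  filter_upwards [rep_ae hw (Vt hw t (cL f hf))] with x hx
  have h1 := (pk_int hw hf ht x).2
  show _ = ∫ y, pk hw t x y * f y ∂(mu w)
  rw [h1, ← hx]
  rfl

lemma fl_der (hw : Weight w) {f : ℝ → ℝ} (hf : MemLp f 2 (mu w)) {t : ℝ} (ht : 0 < t) :
    Der w (fl hw f t) (fun x => ((Vt hw t (cL f hf)).1.snd x).re) := by
  refine der_congr (Vt hw t (cL f hf)).2.1 ?_ (ae_eq_refl _)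
  have := fl_ae hw hf ht
  rw [← pr_Vt hw ht] at this
  exact this

/-- weak form of the equation -/
lemma fl_weak (hw : Weight w) {f : ℝ → ℝ} (hf : MemLp f 2 (mu w)) {t : ℝ} (ht : 0 < t)
    {g g' : ℝ → ℝ} (hg : Der w g g') :
    Integrable (fun x => g x * fl hw f t x) (mu w) ∧
    Integrable (fun x => g' x * ((Vt hw t (cL f hf)).1.snd x).re) (mu w) ∧
    Integrable (fun x => g x *
      ((((Real.exp t : ℝ) : ℂ) • Top (pr w hw) 1 t (cL f hf) : HH w) x).re) (mu w) ∧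
    ∫ x, g x * fl hw f t x ∂(mu w) + ∫ x, g' x * ((Vt hw t (cL f hf)).1.snd x).re ∂(mu w) =
      ∫ x, g x * ((((Real.exp t : ℝ) : ℂ) • Top (pr w hw) 1 t (cL f hf) : HH w) x).re
        ∂(mu w) := by
  obtain ⟨a1, a2⟩ := re_inner_cL hg.1 ((Vt hw t (cL f hf)).1.fst)
  obtain ⟨b1, b2⟩ := re_inner_cL hg.2.1 ((Vt hw t (cL f hf)).1.snd)
  obtain ⟨c1, c2⟩ := re_inner_cL hg.1
    (((Real.exp t : ℝ) : ℂ) • Top (pr w hw) 1 t (cL f hf) : HH w)
  have h0 : (fun x => g x * ((Vt hw t (cL f hf)).1.fst x).re) =ᵐ[mu w]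
      fun x => g x * fl hw f t x := by
    have := fl_ae hw hf ht
    rw [← pr_Vt hw ht] at this
    filter_upwards [this] with x hx
    rw [← hx]; rfl
  refine ⟨a1.congr h0, b1, c1, ?_⟩
  rw [← integral_congr_ae h0, ← a2, ← b2, ← c2, ← Complex.add_re]
  congr 1
  have h1 : ⟪mkV hw hg, Vt hw t (cL f hf)⟫_ℂ =
      ⟪cL g hg.1, (Vt hw t (cL f hf)).1.fst⟫_ℂ + ⟪cL g' hg.2.1, (Vt hw t (cL f hf)).1.snd⟫_ℂ :=
    WithLp.prod_inner_apply (mkV hw hg).1 (Vt hw t (cL f hf)).1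
  rw [← h1]
  exact adjoint_inner_right (pr w hw) (mkV hw hg) _

lemma prod_int {a b : ℝ → ℝ} (ha : MemLp a 2 (mu w)) (hb : MemLp b 2 (mu w)) :
    Integrable (fun x => a x * b x) (mu w) := ha.integrable_mul hb

lemma fl_subdiff (hw : Weight w) {f : ℝ → ℝ} (hf : MemLp f 2 (mu w)) {t : ℝ} (ht : 0 < t)
    {v g : ℝ → ℝ}
    (hv : v =ᵐ[mu w] fun x => fl hw f t x -
      ((((Real.exp t : ℝ) : ℂ) • Top (pr w hw) 1 t (cL f hf) : HH w) x).re)
    (hg : MemLp g 2 (mu w)) (hC : Cw w g < ∞) :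
    (Cw w (fl hw f t)).toReal - ∫ x, v x * (g x - fl hw f t x) ∂(mu w) ≤ (Cw w g).toReal := by
  obtain ⟨g', hd, -⟩ := der_of_fin hw hg hC
  have hu := fl_der hw hf ht
  set θ : ℝ → ℝ := fun x => ((Vt hw t (cL f hf)).1.snd x).re with hθ
  set ω : ℝ → ℝ := fun x =>
    ((((Real.exp t : ℝ) : ℂ) • Top (pr w hw) 1 t (cL f hf) : HH w) x).re with hω
  set u := fl hw f t with hudef
  obtain ⟨a1, a2, a3, a4⟩ := fl_weak hw hf ht hd
  obtain ⟨b1, b2, b3, b4⟩ := fl_weak hw hf ht hu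
  have e1 : (Cw w u).toReal = (∫ x, θ x ^ 2 ∂(mu w)) / 2 := by
    rw [hu.Cw_eq hw, ENNReal.toReal_div, Q_toReal hu.2.1.1.aemeasurable]; rfl
  have e2 : (Cw w g).toReal = (∫ x, g' x ^ 2 ∂(mu w)) / 2 := by
    rw [hd.Cw_eq hw, ENNReal.toReal_div, Q_toReal hd.2.1.1.aemeasurable]; rfl
  have i1 : Integrable (fun x => g' x ^ 2) (mu w) := hd.2.1.integrable_sq
  have i2 : Integrable (fun x => θ x ^ 2) (mu w) := hu.2.1.integrable_sq
  have e3 : ∫ x, v x * (g x - u x) ∂(mu w) =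
      (∫ x, g x * u x ∂(mu w) - ∫ x, u x * u x ∂(mu w)) -
      (∫ x, g x * ω x ∂(mu w) - ∫ x, u x * ω x ∂(mu w)) := by
    have j1 : Integrable (fun x => g x * u x - u x * u x) (mu w) := a1.sub b1
    have j2 : Integrable (fun x => g x * ω x - u x * ω x) (mu w) := a3.sub b3
    rw [← integral_sub a1 b1, ← integral_sub a3 b3, ← integral_sub j1 j2]
    refine integral_congr_ae ?_
    filter_upwards [hv] with x hx
    show v x * (g x - u x) = g x * u x - u x * u x - (g x * ω x - u x * ω x)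
    rw [hx]
    show (u x - ω x) * (g x - u x) = g x * u x - u x * u x - (g x * ω x - u x * ω x)
    ring
  have e4 : ∫ x, g' x * θ x ∂(mu w) ≤ (∫ x, g' x ^ 2 ∂(mu w)) / 2 + (∫ x, θ x ^ 2 ∂(mu w)) / 2 := by
    rw [← integral_div, ← integral_div, ← integral_add (i1.div_const 2) (i2.div_const 2)]
    refine integral_mono a2 ((i1.div_const 2).add (i2.div_const 2)) fun x => ?_
    show g' x * θ x ≤ g' x ^ 2 / 2 + θ x ^ 2 / 2
    nlinarith [sq_nonneg (g' x - θ x)]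
  have e5 : ∫ x, θ x * θ x ∂(mu w) = ∫ x, θ x ^ 2 ∂(mu w) :=
    integral_congr_ae (Eventually.of_forall fun x => (pow_two _).symm)
  have a4' : ∫ x, g x * u x ∂(mu w) + ∫ x, g' x * θ x ∂(mu w) = ∫ x, g x * ω x ∂(mu w) := a4
  have b4' : ∫ x, u x * u x ∂(mu w) + ∫ x, θ x * θ x ∂(mu w) = ∫ x, u x * ω x ∂(mu w) := b4
  rw [e1, e2, e3]
  linarith

/-- the `L²` curve -/
noncomputable def Uc (hw : Weight w) (F : HH w) (t : ℝ) : HH w :=
  ((Real.exp t : ℝ) : ℂ) • Top (pr w hw) 0 t F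

lemma Uc_deriv (hw : Weight w) (F : HH w) {t : ℝ} (ht : 0 < t) :
    Tendsto (fun h : ℝ => ((h⁻¹ : ℝ) : ℂ) • (Uc hw F (t + h) - Uc hw F t)) (𝓝[≠] 0)
      (𝓝 (Uc hw F t - ((Real.exp t : ℝ) : ℂ) • Top (pr w hw) 1 t F)) :=
  flow_slope (pr w hw) ht F

lemma Uc_init (hw : Weight w) (F : HH w) : Tendsto (Uc hw F) (𝓝[>] 0) (𝓝 F) := by
  have h1 := Top_tendsto (pr w hw) (pr_dense hw) F
  have h2 : Tendsto (fun t : ℝ => ((Real.exp t : ℝ) : ℂ)) (𝓝[>] 0) (𝓝 1) := by
    have h3 : Continuous fun t : ℝ => ((Real.exp t : ℝ) : ℂ) := by fun_prop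
    have h4 := (h3.tendsto 0).mono_left (nhdsWithin_le_nhds (s := Ioi 0))
    simpa using h4
  have h3 := h2.smul h1
  rwa [one_smul] at h3

/-- distance of real parts -/
lemma re_dist (f g : HH w) :
    eLpNorm (fun x => (f x).re - (g x).re) 2 (mu w) ≤ ‖f - g‖ₑ := by
  have := norm_part (f := f) (g := g) Complex.re (fun z => Complex.abs_re_le_norm z)
    fun _ _ => Complex.sub_re _ _
  rwa [edist_eq_enorm_sub] at this

lemma isHeatKernel (hw : Weight w) : IsHeatKernel (line w hw) (pk hw) where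
  cont t _ := pk_cont hw t
  int f hf t ht x := (pk_int hw hf ht x).1
  flow f hf := by
    have hf' : MemLp f 2 (mu w) := hf
    have hU : ∀ t, 0 < t → (fun x => (Uc hw (cL f hf') t x).re) =ᵐ[mu w] fl hw f t :=
      fun t ht => fl_ae hw hf' ht
    refine ⟨fun t ht => (fl_der hw hf' ht).1, ?_, fun t ht => ?_⟩
    · show Tendsto (fun t => eLpNorm (fun x => fl hw f t x - f x) 2 (mu w)) (𝓝[>] 0) (𝓝 0)
      have h1 := Uc_init hw (cL f hf')
      have h2 : Tendsto (fun t => ‖Uc hw (cL f hf') t - cL f hf'‖ₑ) (𝓝[>] 0) (𝓝 0) := by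
        have := tendsto_iff_edist_tendsto_0.1 h1
        simpa only [edist_eq_enorm_sub] using this
      refine tendsto_of_tendsto_of_tendsto_of_le_of_le' tendsto_const_nhds h2
        (Eventually.of_forall fun _ => bot_le) ?_
      filter_upwards [self_mem_nhdsWithin] with t ht
      refine le_trans (le_of_eq ?_) (re_dist _ _)
      refine eLpNorm_congr_ae ?_
      filter_upwards [hU t ht, cL_ae f hf'] with x h3 h4
      rw [← h3, h4]; rfl
    · set Y : HH w := ((Real.exp t : ℝ) : ℂ) • Top (pr w hw) 1 t (cL f hf') with hY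
      have hder := Uc_deriv hw (cL f hf') ht
      refine ⟨fun x => ((Uc hw (cL f hf') t - Y : HH w) x).re, memLp_re _, ?_, ?_, ?_⟩
      · show Tendsto (fun h => eLpNorm (fun x => (fl hw f (t + h) x - fl hw f t x) / h -
          ((Uc hw (cL f hf') t - Y : HH w) x).re) 2 (mu w)) (𝓝[≠] 0) (𝓝 0)
        have h2 := tendsto_iff_edist_tendsto_0.1 hder
        simp only [edist_eq_enorm_sub] at h2
        refine tendsto_of_tendsto_of_tendsto_of_le_of_le' tendsto_const_nhds h2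
          (Eventually.of_forall fun _ => bot_le) ?_
        have h3 : ∀ᶠ h : ℝ in 𝓝[≠] 0, 0 < t + h := by
          have : ∀ᶠ h : ℝ in 𝓝 0, -t < h := lt_mem_nhds (by linarith)
          filter_upwards [this.filter_mono nhdsWithin_le_nhds] with h hh
          linarith
        filter_upwards [h3] with h hh
        refine le_trans (le_of_eq ?_) (re_dist _ _)
        refine eLpNorm_congr_ae ?_
        have e1 : (((h⁻¹ : ℝ) : ℂ) • (Uc hw (cL f hf') (t + h) - Uc hw (cL f hf') t) : HH w)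
            =ᵐ[mu w]
            fun x => ((h⁻¹ : ℝ) : ℂ) * (Uc hw (cL f hf') (t + h) x - Uc hw (cL f hf') t x) := by
          filter_upwards [Lp.coeFn_smul ((h⁻¹ : ℝ) : ℂ)
            (Uc hw (cL f hf') (t + h) - Uc hw (cL f hf') t),
            Lp.coeFn_sub (Uc hw (cL f hf') (t + h)) (Uc hw (cL f hf') t)] with x a b
          rw [a, Pi.smul_apply, b, Pi.sub_apply, smul_eq_mul]
        filter_upwards [hU t ht, hU (t + h) hh, e1] with x a b c
        rw [c, ← a, ← b, Complex.re_ofReal_mul, Complex.sub_re]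
        ring
      · show Cw w (fl hw f t) < ∞
        rw [(fl_der hw hf' ht).Cw_eq hw]
        exact half_lt_top (Q_lt_top (fl_der hw hf' ht).2.1)
      · intro g hg hC
        refine fl_subdiff hw hf' ht ?_ hg hC
        filter_upwards [Lp.coeFn_sub (Uc hw (cL f hf') t) Y, hU t ht] with x a b
        rw [a, Pi.sub_apply, Complex.sub_re, b]

end Pool.Agent.Helper72.HK
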