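import Pool.Agent.Helper72.HK.Ker

/-!
Non-convergence of the heat kernels of the oscillating weighted lines.
-/

set_option autoImplicit false

open MeasureTheory Filter Topology Set Metric
open scoped ENNReal NNReal InnerProductSpace
open Pool.Agent.N288.MM
open ContinuousLinearMap (adjoint adjoint_inner_left adjoint_inner_right)

namespace Pool.Agent.Helper72.HK

variable {w : ℝ → ℝ}

lemma form_eq (hw : Weight w) {f g : ℝ → ℝ} (h : Der w f g) {t : ℝ} (ht : 0 < t) :
    (⟪pr w hw (mkV hw h) - Top (pr w hw) 0 t (pr w hw (mkV hw h)), pr w hw (mkV hw h)⟫_ℂ).re =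
      ∫ x, f x ^ 2 ∂(mu w) - Real.exp (-t) * ∫ x, f x * fl hw f t x ∂(mu w) := by
  rw [pr_mkV, inner_sub_left, Complex.sub_re]
  have h1 : (⟪cL f h.1, cL f h.1⟫_ℂ).re = ∫ x, f x ^ 2 ∂(mu w) := by
    rw [← self_inner, Complex.ofReal_re, cL_norm_sq]
  have h2 : ∫ x, f x * fl hw f t x ∂(mu w) =
      Real.exp t * (⟪cL f h.1, Top (pr w hw) 0 t (cL f h.1)⟫_ℂ).re := by
    have h3 := (re_inner_cL h.1 (Uc hw (cL f h.1) t)).2
    unfold Uc at h3
    rw [inner_smul_right, Complex.re_ofReal_mul] at h3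
    rw [h3]
    refine integral_congr_ae ?_
    filter_upwards [fl_ae hw h.1 ht] with x hx
    rw [← hx]
  rw [h1, h2, ← mul_assoc, ← Real.exp_add, neg_add_cancel, Real.exp_zero, one_mul,
    re_inner_swap (Top (pr w hw) 0 t (cL f h.1))]

lemma norm_mkV (hw : Weight w) {f g : ℝ → ℝ} (h : Der w f g) :
    ‖mkV hw h‖ ^ 2 = ∫ x, f x ^ 2 ∂(mu w) + ∫ x, g x ^ 2 ∂(mu w) := by
  rw [norm_sq_VV, mkV_fst, mkV_snd, cL_norm_sq, cL_norm_sq]

lemma formD (hw : Weight w) {f g : ℝ → ℝ} (h : Der w f g) {t : ℝ} (ht : 0 < t) :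
    ∫ x, f x ^ 2 ∂(mu w) - Real.exp (-t) * ∫ x, f x * fl hw f t x ∂(mu w) ≤
      t * (∫ x, f x ^ 2 ∂(mu w) + ∫ x, g x ^ 2 ∂(mu w)) := by
  rw [← form_eq hw h ht, ← norm_mkV hw h]
  exact form_le (pr w hw) ht (mkV hw h)

lemma formE (hw : Weight w) {f g : ℝ → ℝ} (h : Der w f g) {K : ℝ}
    (hK : ∀ t : ℝ, 0 < t →
      ∫ x, f x ^ 2 ∂(mu w) - Real.exp (-t) * ∫ x, f x * fl hw f t x ∂(mu w) ≤ t * K) :
    ∫ x, f x ^ 2 ∂(mu w) + ∫ x, g x ^ 2 ∂(mu w) ≤ K := by
  rw [← norm_mkV hw h]
  refine norm_le_of_form (pr w hw) (pr_dense hw) (pr_injective hw) (mkV hw h) ?_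
  filter_upwards [self_mem_nhdsWithin] with t ht
  rw [form_eq hw h ht]
  exact hK t ht

/-- convergence of integrals of converging bounded functions -/
lemma int_tendsto {a : ℕ → ℝ → ℝ} {b : ℝ → ℝ} {C : ℝ}
    (hm : ∀ N, AEStronglyMeasurable (a N) volume)
    (hC : ∀ N x, |a N x| ≤ (Icc (-1 : ℝ) 1).indicator (fun _ => C) x)
    (hl : ∀ x, Tendsto (fun N => a N x) atTop (𝓝 (b x))) :
    Tendsto (fun N => ∫ x, a N x ∂(mu (wN N))) atTop (𝓝 (∫ x, b x ∂(mu wI))) := by
  have hi : Integrable ((Icc (-1 : ℝ) 1).indicator (fun _ => C)) volume :=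
    (integrable_indicator_iff measurableSet_Icc).2 (integrableOn_const (by simp))
  have hbC : ∀ x, |b x| ≤ (Icc (-1 : ℝ) 1).indicator (fun _ => C) x := fun x =>
    le_of_tendsto ((continuous_abs.tendsto _).comp (hl x)) (Eventually.of_forall fun N => hC N x)
  have hbm : AEStronglyMeasurable b volume :=
    aestronglyMeasurable_of_tendsto_ae atTop hm (Eventually.of_forall hl)
  have hai : ∀ N, Integrable (a N) volume := fun N =>
    hi.mono' (hm N) (Eventually.of_forall fun x => hC N x)
  have hbi : Integrable b volume := hi.mono' hbm (Eventually.of_forall fun x => hbC x)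
  have h1 := weak_int hbi
  have toMu : ∀ {g : ℝ → ℝ}, Integrable g volume → ∀ {w : ℝ → ℝ}, Weight w →
      Integrable g (mu w) := by
    intro g hg w hw
    have h2 : Integrable g ((2 : ℝ≥0∞) • (volume : Measure ℝ)) := hg.smul_measure (by norm_num)
    exact h2.mono_measure (le_vol hw)
  have h2 : Tendsto (fun N => ∫ x, |a N x - b x|) atTop (𝓝 0) := by
    have h3 : Tendsto (fun N => ∫ x, |a N x - b x|) atTop (𝓝 (∫ _ : ℝ, (0 : ℝ))) := by
      refine tendsto_integral_of_dominated_convergence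
        (fun x => 2 * (Icc (-1 : ℝ) 1).indicator (fun _ => C) x) ?_ (hi.const_mul 2) ?_ ?_
      · intro N
        exact ((hm N).sub hbm).norm
      · intro N
        refine Eventually.of_forall fun x => ?_
        rw [Real.norm_eq_abs, abs_abs]
        have := abs_sub (a N x) (b x)
        linarith [hC N x, hbC x]
      · refine Eventually.of_forall fun x => ?_
        have := ((hl x).sub_const (b x)).abs
        rwa [sub_self, abs_zero] at this
    rwa [integral_zero] at h3
  have h3 : Tendsto (fun N => ∫ x, (a N x - b x) ∂(mu (wN N))) atTop (𝓝 0) := by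
    have h4 := h2.const_mul 2
    rw [mul_zero] at h4
    refine squeeze_zero_norm (fun N => ?_) h4
    have h5 : Integrable (fun x => |a N x - b x|) volume := ((hai N).sub hbi).norm
    calc ‖∫ x, (a N x - b x) ∂(mu (wN N))‖ ≤ ∫ x, |a N x - b x| ∂(mu (wN N)) :=
          norm_integral_le_integral_norm _
      _ = ∫ x, wN N x * |a N x - b x| := int_mu (wN_weight N) _
      _ ≤ ∫ x, 2 * |a N x - b x| := by
          refine integral_mono_of_nonneg (Eventually.of_forall fun x => ?_) (h5.const_mul 2)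
            (Eventually.of_forall fun x => ?_)
          · exact mul_nonneg (le_trans zero_le_one ((wN_weight N).one_le x)) (abs_nonneg _)
          · exact mul_le_mul_of_nonneg_right ((wN_weight N).le_two x) (abs_nonneg _)
      _ = 2 * ∫ x, |a N x - b x| := integral_const_mul _ _
  have h4 := h3.add h1
  rw [zero_add] at h4
  refine h4.congr fun N => ?_
  have j1 : Integrable (fun x => a N x - b x) (mu (wN N)) :=
    (toMu (hai N) (wN_weight N)).sub (toMu hbi (wN_weight N))
  rw [← integral_add j1 (toMu hbi (wN_weight N))]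
  refine integral_congr_ae (Eventually.of_forall fun x => ?_)
  show a N x - b x + b x = a N x
  ring

lemma fN_tendsto (x : ℝ) : Tendsto (fun N => fN N x) atTop (𝓝 (tent x)) := by
  rw [tendsto_iff_norm_sub_tendsto_zero]
  refine squeeze_zero (fun _ => norm_nonneg _) (fun N => ?_)
    (tendsto_one_div_add_atTop_nhds_zero_nat (𝕜 := ℝ))
  rw [Real.norm_eq_abs]
  refine (diff_le N x).trans ?_
  by_cases hx : x ∈ Icc (-1 : ℝ) 1
  · rw [indicator_of_mem hx]
  · rw [indicator_of_notMem hx]; positivity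

/-- pointwise convergence of the kernels -/
def Conv : Prop := ∀ t : ℝ, 0 < t → ∀ x y : ℝ,
  Tendsto (fun N => pk (wN_weight N) t x y) atTop (𝓝 (pk wI_weight t x y))

lemma fl_tendsto (hc : Conv) {t : ℝ} (ht : 0 < t) (x : ℝ) :
    Tendsto (fun N => fl (wN_weight N) (fN N) t x) atTop (𝓝 (fl wI_weight tent t x)) := by
  unfold fl
  refine int_tendsto (a := fun N y => pk (wN_weight N) t x y * fN N y)
    (b := fun y => pk wI_weight t x y * tent y) (C := Real.exp t * (32 / t ^ 2) * 4)
    (fun N => ?_) (fun N y => ?_) (fun y => (hc t ht x y).mul (fN_tendsto y))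
  · exact ((pk_cont_right (wN_weight N) t x).mul (fN_cont N)).aestronglyMeasurable
  · have h1 := fN_abs N y
    have h2 := pk_bound (wN_weight N) ht x y
    rw [abs_mul]
    by_cases hy : y ∈ Icc (-1 : ℝ) 1
    · rw [indicator_of_mem hy] at h1 ⊢
      exact mul_le_mul h2 h1 (abs_nonneg _) (by positivity)
    · rw [indicator_of_notMem hy] at h1 ⊢
      have : |fN N y| = 0 := le_antisymm h1 (abs_nonneg _)
      rw [this, mul_zero]

lemma fl_bound (N : ℕ) {t : ℝ} (ht : 0 < t) (x : ℝ) :
    |fl (wN_weight N) (fN N) t x| ≤ Real.exp t * (32 / t ^ 2) * 4 * 4 := by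
  have hmu : mu (wN N) (Icc (-1) 1) < ∞ := (mu_Icc (wN_weight N)).trans_lt (by norm_num)
  unfold fl
  rw [← Real.norm_eq_abs]
  calc ‖∫ y, pk (wN_weight N) t x y * fN N y ∂(mu (wN N))‖
      ≤ ∫ y, ‖pk (wN_weight N) t x y * fN N y‖ ∂(mu (wN N)) := norm_integral_le_integral_norm _
    _ ≤ ∫ y, (Icc (-1 : ℝ) 1).indicator (fun _ => Real.exp t * (32 / t ^ 2) * 4) y
          ∂(mu (wN N)) := by
        refine integral_mono_of_nonneg (Eventually.of_forall fun y => norm_nonneg _) ?_
          (Eventually.of_forall fun y => ?_)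
        · exact (integrable_indicator_iff measurableSet_Icc).2 (integrableOn_const hmu.ne)
        · show ‖pk (wN_weight N) t x y * fN N y‖ ≤ _
          have h1 := fN_abs N y
          have h2 := pk_bound (wN_weight N) ht x y
          rw [Real.norm_eq_abs, abs_mul]
          by_cases hy : y ∈ Icc (-1 : ℝ) 1
          · rw [indicator_of_mem hy] at h1 ⊢
            exact mul_le_mul h2 h1 (abs_nonneg _) (by positivity)
          · rw [indicator_of_notMem hy] at h1 ⊢
            have : |fN N y| = 0 := le_antisymm h1 (abs_nonneg _)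
            rw [this, mul_zero]
    _ = (mu (wN N) (Icc (-1) 1)).toReal * (Real.exp t * (32 / t ^ 2) * 4) := by
        rw [integral_indicator measurableSet_Icc, setIntegral_const, smul_eq_mul]
        rfl
    _ ≤ Real.exp t * (32 / t ^ 2) * 4 * 4 := by
        rw [mul_comm]
        refine mul_le_mul_of_nonneg_left ?_ (by positivity)
        exact ENNReal.toReal_le_of_le_ofReal (by norm_num)
          ((mu_Icc (wN_weight N)).trans (by simp))

lemma J_tendsto (hc : Conv) {t : ℝ} (ht : 0 < t) :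
    Tendsto (fun N => ∫ x, fN N x * fl (wN_weight N) (fN N) t x ∂(mu (wN N))) atTop
      (𝓝 (∫ x, tent x * fl wI_weight tent t x ∂(mu wI))) := by
  refine int_tendsto (a := fun N x => fN N x * fl (wN_weight N) (fN N) t x)
    (b := fun x => tent x * fl wI_weight tent t x)
    (C := 4 * (Real.exp t * (32 / t ^ 2) * 4 * 4)) (fun N => ?_) (fun N x => ?_)
    (fun x => (fN_tendsto x).mul (fl_tendsto hc ht x))
  · have h1 := (fl_der (wN_weight N) (fN_memLp (wN_weight N) N) ht).1
    exact (fN_cont N).aestronglyMeasurable.mul (memLp_vol (wN_weight N) h1).1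
  · have h1 := fN_abs N x
    have h2 := fl_bound N ht x
    rw [abs_mul]
    by_cases hx : x ∈ Icc (-1 : ℝ) 1
    · rw [indicator_of_mem hx] at h1 ⊢
      exact mul_le_mul h1 h2 (abs_nonneg _) (by positivity)
    · rw [indicator_of_notMem hx] at h1 ⊢
      have : |fN N x| = 0 := le_antisymm h1 (abs_nonneg _)
      rw [this, zero_mul]

lemma sq_tendsto :
    Tendsto (fun N => ∫ x, fN N x ^ 2 ∂(mu (wN N))) atTop (𝓝 (∫ x, tent x ^ 2 ∂(mu wI))) := by
  refine int_tendsto (a := fun N x => fN N x ^ 2) (b := fun x => tent x ^ 2)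
    (C := 16) (fun N => ?_) (fun N x => ?_) (fun x => (fN_tendsto x).pow 2)
  · exact ((fN_cont N).pow 2).aestronglyMeasurable
  · have h1 := fN_abs N x
    rw [abs_pow]
    by_cases hx : x ∈ Icc (-1 : ℝ) 1
    · rw [indicator_of_mem hx] at h1 ⊢
      nlinarith [abs_nonneg (fN N x)]
    · rw [indicator_of_notMem hx] at h1 ⊢
      have : |fN N x| = 0 := le_antisymm h1 (abs_nonneg _)
      rw [this]; norm_num

lemma th_sq (N : ℕ) : ∫ x, thN N x ^ 2 ∂(mu (wN N)) = 17 / 6 := by
  have hw := wN_weight N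
  have hd : Der (wN N) (fN N) (thN N) := (bd_thN N).der hw
  have h1 := hd.Cw_eq hw
  rw [Cw_fN] at h1
  rw [← Q_toReal hd.2.1.1.aemeasurable]
  have h2 := congrArg ENNReal.toReal h1
  rw [ENNReal.toReal_ofReal (by norm_num), ENNReal.toReal_div] at h2
  have h3 : (2 : ℝ≥0∞).toReal = 2 := by simp
  rw [h3] at h2
  linarith

lemma sg_sq_int : ∫ x, sg x ^ 2 ∂(mu wI) = 3 := by
  have hw := wI_weight
  have hd : Der wI tent sg := bd_sg.der hw
  have h1 := hd.Cw_eq hw
  rw [Cw_tent] at h1
  rw [← Q_toReal hd.2.1.1.aemeasurable]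
  have h2 := congrArg ENNReal.toReal h1
  rw [ENNReal.toReal_ofReal (by norm_num), ENNReal.toReal_div] at h2
  have h3 : (2 : ℝ≥0∞).toReal = 2 := by simp
  rw [h3] at h2
  linarith

/-- the kernels do not converge pointwise -/
lemma not_conv : ¬ Conv := by
  intro hc
  have hE := formE wI_weight (f := tent) (g := sg) (bd_sg.der wI_weight)
    (K := ∫ x, tent x ^ 2 ∂(mu wI) + 17 / 6) (fun t ht => by
      have h1 := (sq_tendsto).sub ((J_tendsto hc ht).const_mul (Real.exp (-t)))
      have h2 := (sq_tendsto.add_const (17 / 6)).const_mul t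
      refine le_of_tendsto_of_tendsto' h1 h2 fun N => ?_
      have h3 := formD (wN_weight N) (f := fN N) (g := thN N) ((bd_thN N).der (wN_weight N)) ht
      rw [th_sq] at h3
      exact h3)
  rw [sg_sq_int] at hE
  linarith

end Pool.Agent.Helper72.HK
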