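import Pool.Agent.Helper72.HK.Ab
import Pool.Graph.R_pool_sql_team_seeded_63374d34.N288.MM.Final

/-!
The Sobolev space of a weighted line, as a closed subspace of `L² × L²` (complex valued).
-/

set_option autoImplicit false

open MeasureTheory Filter Topology Set Metric
open scoped ENNReal NNReal InnerProductSpace
open Pool.Agent.N288.MM

namespace Pool.Agent.Helper72.HK

variable {w : ℝ → ℝ}

lemma der_congr {f g f' g' : ℝ → ℝ} (h : Der w f g) (h1 : f =ᵐ[mu w] f')
    (h2 : g =ᵐ[mu w] g') : Der w f' g' := by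
  obtain ⟨hf, hg, F, hF, hd⟩ := h
  refine ⟨hf.ae_eq h1, hg.ae_eq h2, F, ⟨hF.1, hF.2.congr fun n => eLpNorm_congr_ae ?_⟩,
    hd.congr fun n => eLpNorm_congr_ae ?_⟩
  · filter_upwards [h1] with x hx
    rw [hx]
  · filter_upwards [h2] with x hx
    rw [hx]

lemma tri {μ : Measure ℝ} {a b c : ℝ → ℝ} (ha : AEStronglyMeasurable a μ)
    (hb : AEStronglyMeasurable b μ) (hc : AEStronglyMeasurable c μ) :
    eLpNorm (fun x => a x - c x) 2 μ ≤
      eLpNorm (fun x => a x - b x) 2 μ + eLpNorm (fun x => b x - c x) 2 μ := by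
  have := eLpNorm_add_le (p := 2) (μ := μ) (f := fun x => a x - b x) (g := fun x => b x - c x)
    (ha.sub hb) (hb.sub hc) (by norm_num)
  refine le_trans (le_of_eq ?_) this
  congr 1
  funext x
  show a x - c x = a x - b x + (b x - c x)
  ring

lemma der_closed {f g : ℝ → ℝ} {fn gn : ℕ → ℝ → ℝ} (hf : MemLp f 2 (mu w))
    (hg : MemLp g 2 (mu w)) (h : ∀ n, Der w (fn n) (gn n))
    (h1 : Tendsto (fun n => eLpNorm (fun x => fn n x - f x) 2 (mu w)) atTop (𝓝 0))
    (h2 : Tendsto (fun n => eLpNorm (fun x => gn n x - g x) 2 (mu w)) atTop (𝓝 0)) :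
    Der w f g := by
  have key : ∀ n : ℕ, ∃ F : ℝ → ℝ, IsLip F ∧ MemLp F 2 (mu w) ∧
      eLpNorm (fun x => F x - fn n x) 2 (mu w) < 1 / (n + 1) ∧
      eLpNorm (fun x => deriv F x - gn n x) 2 (mu w) < 1 / (n + 1) := by
    intro n
    have hn : (0 : ℝ≥0∞) < 1 / (n + 1) := by
      refine ENNReal.div_pos (by simp) ?_
      exact ENNReal.add_ne_top.2 ⟨by simp, by simp⟩
    obtain ⟨-, -, F, hF, hd⟩ := h n
    obtain ⟨k, hk1, hk2⟩ := (((tendsto_order.1 hF.2).2 _ hn).and
      ((tendsto_order.1 hd).2 _ hn)).exists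
    exact ⟨F k, (hF.1 k).1, (hF.1 k).2, hk1, hk2⟩
  choose F f1 f2 f3 f4 using key
  have hz : Tendsto (fun n : ℕ => (1 : ℝ≥0∞) / (n + 1)) atTop (𝓝 0) := by
    have := ENNReal.tendsto_inv_nat_nhds_zero.comp (tendsto_add_atTop_nat 1)
    refine this.congr fun n => ?_
    simp
  refine ⟨hf, hg, F, ⟨fun n => ⟨f1 n, f2 n⟩, ?_⟩, ?_⟩
  · have h0 := hz.add h1
    rw [add_zero] at h0
    refine tendsto_of_tendsto_of_tendsto_of_le_of_le tendsto_const_nhds h0 (fun _ => bot_le)
      fun n => ?_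
    refine (tri (f2 n).1 (h n).1.1 hf.1).trans ?_
    exact add_le_add (f3 n).le le_rfl
  · have h0 := hz.add h2
    rw [add_zero] at h0
    refine tendsto_of_tendsto_of_tendsto_of_le_of_le tendsto_const_nhds h0 (fun _ => bot_le)
      fun n => ?_
    refine (tri (measurable_deriv _).aestronglyMeasurable (h n).2.1.1 hg.1).trans ?_
    exact add_le_add (f4 n).le le_rfl

/-- complex `L²` of the weighted line -/
noncomputable abbrev HH (w : ℝ → ℝ) := Lp ℂ 2 (mu w)

/-- pairs -/
noncomputable abbrev PP (w : ℝ → ℝ) := WithLp 2 (HH w × HH w)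

/-- the real and the imaginary part of the second function are the derivatives of those of the
first function -/
def IsD (w : ℝ → ℝ) (v : PP w) : Prop :=
  Der w (fun x => (v.fst x).re) (fun x => (v.snd x).re) ∧
    Der w (fun x => (v.fst x).im) (fun x => (v.snd x).im)

lemma isD_zero : IsD w 0 := by
  have h0 : Der w (fun _ => 0) (fun _ => 0) := by
    refine ⟨MemLp.zero, MemLp.zero, fun _ _ => 0, ⟨fun _ => ⟨⟨0, ?_⟩, MemLp.zero⟩, ?_⟩, ?_⟩
    · exact LipschitzWith.const 0
    · simp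
    · simp
  have e1 : (0 : PP w).fst =ᵐ[mu w] 0 := Lp.coeFn_zero _ _ _
  have e2 : (0 : PP w).snd =ᵐ[mu w] 0 := Lp.coeFn_zero _ _ _
  constructor
  · refine der_congr h0 ?_ ?_
    · filter_upwards [e1] with x hx
      rw [hx]; rfl
    · filter_upwards [e2] with x hx
      rw [hx]; rfl
  · refine der_congr h0 ?_ ?_
    · filter_upwards [e1] with x hx
      rw [hx]; rfl
    · filter_upwards [e2] with x hx
      rw [hx]; rfl

lemma isD_add (hw : Weight w) {u v : PP w} (hu : IsD w u) (hv : IsD w v) : IsD w (u + v) := by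
  have e1 : (u + v).fst =ᵐ[mu w] fun x => u.fst x + v.fst x := Lp.coeFn_add _ _
  have e2 : (u + v).snd =ᵐ[mu w] fun x => u.snd x + v.snd x := Lp.coeFn_add _ _
  constructor
  · refine der_congr (hu.1.add hw hv.1) ?_ ?_
    · filter_upwards [e1] with x hx
      rw [hx, Complex.add_re]
    · filter_upwards [e2] with x hx
      rw [hx, Complex.add_re]
  · refine der_congr (hu.2.add hw hv.2) ?_ ?_
    · filter_upwards [e1] with x hx
      rw [hx, Complex.add_im]
    · filter_upwards [e2] with x hx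
      rw [hx, Complex.add_im]

lemma isD_smul (hw : Weight w) (c : ℂ) {u : PP w} (hu : IsD w u) : IsD w (c • u) := by
  have e1 : (c • u).fst =ᵐ[mu w] fun x => c * u.fst x := Lp.coeFn_smul _ _
  have e2 : (c • u).snd =ᵐ[mu w] fun x => c * u.snd x := Lp.coeFn_smul _ _
  constructor
  · refine der_congr ((hu.1.smul hw c.re).sub hw (hu.2.smul hw c.im)) ?_ ?_
    · filter_upwards [e1] with x hx
      rw [hx, Complex.mul_re]
    · filter_upwards [e2] with x hx
      rw [hx, Complex.mul_re]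
  · refine der_congr ((hu.2.smul hw c.re).add hw (hu.1.smul hw c.im)) ?_ ?_
    · filter_upwards [e1] with x hx
      rw [hx, Complex.mul_im]
    · filter_upwards [e2] with x hx
      rw [hx, Complex.mul_im]

/-- the Sobolev space -/
noncomputable def VV (w : ℝ → ℝ) (hw : Weight w) : Submodule ℂ (PP w) where
  carrier := {v | IsD w v}
  zero_mem' := isD_zero
  add_mem' := fun hu hv => isD_add hw hu hv
  smul_mem' := fun c _ hu => isD_smul hw c hu

lemma mem_VV (hw : Weight w) (v : PP w) : v ∈ VV w hw ↔ IsD w v := Iff.rfl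

lemma norm_part {f g : HH w} (φ : ℂ → ℝ) (h0 : ∀ z, ‖φ z‖ ≤ ‖z‖) (hs : ∀ z z', φ (z - z') = φ z - φ z') :
    eLpNorm (fun x => φ (f x) - φ (g x)) 2 (mu w) ≤ edist f g := by
  rw [Lp.edist_def]
  refine eLpNorm_mono fun x => ?_
  rw [← hs]
  exact h0 _

lemma memLp_re (f : HH w) : MemLp (fun x => (f x).re) 2 (mu w) := (Lp.memLp f).re

lemma memLp_im (f : HH w) : MemLp (fun x => (f x).im) 2 (mu w) := (Lp.memLp f).im

lemma VV_closed (hw : Weight w) : IsClosed (VV w hw : Set (PP w)) := by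
  refine IsSeqClosed.isClosed fun u v hu hv => ?_
  have h1 : Tendsto (fun n => edist (u n).fst v.fst) atTop (𝓝 0) := by
    have := ((WithLp.fstL 2 ℂ (HH w) (HH w)).continuous.tendsto v).comp hv
    exact (tendsto_iff_edist_tendsto_0.1 this)
  have h2 : Tendsto (fun n => edist (u n).snd v.snd) atTop (𝓝 0) := by
    have := ((WithLp.sndL 2 ℂ (HH w) (HH w)).continuous.tendsto v).comp hv
    exact (tendsto_iff_edist_tendsto_0.1 this)
  have hre : ∀ z : ℂ, ‖z.re‖ ≤ ‖z‖ := fun z => Complex.abs_re_le_norm z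
  have him : ∀ z : ℂ, ‖z.im‖ ≤ ‖z‖ := fun z => Complex.abs_im_le_norm z
  constructor
  · refine der_closed (memLp_re _) (memLp_re _) (fun n => (hu n).1) ?_ ?_
    · exact tendsto_of_tendsto_of_tendsto_of_le_of_le tendsto_const_nhds h1 (fun _ => bot_le)
        fun n => norm_part Complex.re hre fun _ _ => Complex.sub_re _ _
    · exact tendsto_of_tendsto_of_tendsto_of_le_of_le tendsto_const_nhds h2 (fun _ => bot_le)
        fun n => norm_part Complex.re hre fun _ _ => Complex.sub_re _ _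
  · refine der_closed (memLp_im _) (memLp_im _) (fun n => (hu n).2) ?_ ?_
    · exact tendsto_of_tendsto_of_tendsto_of_le_of_le tendsto_const_nhds h1 (fun _ => bot_le)
        fun n => norm_part Complex.im him fun _ _ => Complex.sub_im _ _
    · exact tendsto_of_tendsto_of_tendsto_of_le_of_le tendsto_const_nhds h2 (fun _ => bot_le)
        fun n => norm_part Complex.im him fun _ _ => Complex.sub_im _ _

instance (hw : Weight w) : CompleteSpace (VV w hw) := (VV_closed hw).completeSpace_coe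

/-- the inclusion of the Sobolev space in `L²` -/
noncomputable def pr (w : ℝ → ℝ) (hw : Weight w) : VV w hw →L[ℂ] HH w :=
  (WithLp.fstL 2 ℂ (HH w) (HH w)) ∘L (VV w hw).subtypeL

lemma pr_apply (hw : Weight w) (v : VV w hw) : pr w hw v = v.1.fst := rfl

lemma norm_sq_VV (hw : Weight w) (v : VV w hw) : ‖v‖ ^ 2 = ‖v.1.fst‖ ^ 2 + ‖v.1.snd‖ ^ 2 :=
  WithLp.prod_norm_sq_eq_of_L2 v.1

lemma norm_fst_le (hw : Weight w) (v : VV w hw) : ‖v.1.fst‖ ≤ ‖v‖ := by
  have := norm_sq_VV hw v
  have h1 := sq_nonneg ‖v.1.snd‖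
  exact le_of_sq_le_sq (by linarith) (norm_nonneg _)

lemma norm_snd_le (hw : Weight w) (v : VV w hw) : ‖v.1.snd‖ ≤ ‖v‖ := by
  have := norm_sq_VV hw v
  have h1 := sq_nonneg ‖v.1.fst‖
  exact le_of_sq_le_sq (by linarith) (norm_nonneg _)

lemma pr_injective (hw : Weight w) : Function.Injective (pr w hw) := by
  rw [injective_iff_map_eq_zero]
  intro v hv
  rw [pr_apply] at hv
  have e1 : v.1.fst =ᵐ[mu w] 0 := by rw [hv]; exact Lp.coeFn_zero _ _ _
  have h0 : Der w (fun _ => 0) (fun _ => 0) := by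
    refine ⟨MemLp.zero, MemLp.zero, fun _ _ => 0, ⟨fun _ => ⟨⟨0, ?_⟩, MemLp.zero⟩, ?_⟩, ?_⟩
    · exact LipschitzWith.const 0
    · simp
    · simp
  have hv1 : Der w (fun _ => 0) (fun x => (v.1.snd x).re) := by
    refine der_congr v.2.1 ?_ (ae_eq_refl _)
    filter_upwards [e1] with x hx
    rw [hx]; rfl
  have hv2 : Der w (fun _ => 0) (fun x => (v.1.snd x).im) := by
    refine der_congr v.2.2 ?_ (ae_eq_refl _)
    filter_upwards [e1] with x hx
    rw [hx]; rfl
  have h1 := hv1.unique hw h0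
  have h2 := hv2.unique hw h0
  have h3 : v.1.snd = 0 := by
    refine Lp.ext ?_
    filter_upwards [(ae_iff_vol hw).2 h1, (ae_iff_vol hw).2 h2, Lp.coeFn_zero ℂ 2 (mu w)]
      with x a b c
    rw [c]
    exact Complex.ext a b
  have h4 := norm_sq_VV hw v
  rw [hv, h3, norm_zero] at h4
  exact norm_eq_zero.1 (by nlinarith [norm_nonneg v])

end Pool.Agent.Helper72.HK
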