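import Pool.Agent.Helper72.HK.Sob

/-!
The Sobolev space of a weighted line: density, continuous representatives, evaluation.
-/

set_option autoImplicit false

open MeasureTheory Filter Topology Set Metric
open scoped ENNReal NNReal InnerProductSpace
open Pool.Agent.N288.MM

namespace Pool.Agent.Helper72.HK

variable {w : ℝ → ℝ}

lemma memLp_ofReal {f : ℝ → ℝ} (hf : MemLp f 2 (mu w)) : MemLp (fun x => (f x : ℂ)) 2 (mu w) :=
  hf.ofReal

/-- a real function as an element of complex `L²` -/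
noncomputable def cL (f : ℝ → ℝ) (hf : MemLp f 2 (mu w)) : HH w := (memLp_ofReal hf).toLp _

lemma cL_ae (f : ℝ → ℝ) (hf : MemLp f 2 (mu w)) : cL f hf =ᵐ[mu w] fun x => (f x : ℂ) :=
  MemLp.coeFn_toLp _

lemma inner_eq (f g : HH w) : ⟪f, g⟫_ℂ = ∫ x, ⟪f x, g x⟫_ℂ ∂(mu w) := L2.inner_def f g

lemma norm_sq_eq (f : HH w) : ‖f‖ ^ 2 = ∫ x, ‖f x‖ ^ 2 ∂(mu w) := by
  have h1 : ((‖f‖ ^ 2 : ℝ) : ℂ) = ⟪f, f⟫_ℂ := by
    rw [inner_self_eq_norm_sq_to_K]; norm_cast
  have h2 : ⟪f, f⟫_ℂ = ((∫ x, ‖f x‖ ^ 2 ∂(mu w) : ℝ) : ℂ) := by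
    rw [inner_eq, ← integral_complex_ofReal]
    refine integral_congr_ae (Eventually.of_forall fun x => ?_)
    show ⟪f x, f x⟫_ℂ = ((‖f x‖ ^ 2 : ℝ) : ℂ)
    rw [inner_self_eq_norm_sq_to_K]; norm_cast
  rw [h2] at h1
  exact_mod_cast h1

lemma norm_sq_int (f : HH w) : Integrable (fun x => ‖f x‖ ^ 2) (mu w) :=
  (Lp.memLp f).integrable_norm_pow (by norm_num)

lemma cL_norm_sq (f : ℝ → ℝ) (hf : MemLp f 2 (mu w)) : ‖cL f hf‖ ^ 2 = ∫ x, f x ^ 2 ∂(mu w) := by
  rw [norm_sq_eq]
  refine integral_congr_ae ?_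
  filter_upwards [cL_ae f hf] with x hx
  rw [hx, Complex.norm_real, Real.norm_eq_abs, sq_abs]

/-- the element of the Sobolev space given by a real function and its derivative -/
noncomputable def mkV (hw : Weight w) {f g : ℝ → ℝ} (h : Der w f g) : VV w hw :=
  ⟨WithLp.toLp 2 (cL f h.1, cL g h.2.1), by
    have e1 := cL_ae f h.1
    have e2 := cL_ae g h.2.1
    constructor
    · refine der_congr h ?_ ?_
      · filter_upwards [e1] with x hx
        show f x = (cL f h.1 x).re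
        rw [hx]; rfl
      · filter_upwards [e2] with x hx
        show g x = (cL g h.2.1 x).re
        rw [hx]; rfl
    · have h0 : Der w (fun _ => 0) (fun _ => 0) := by
        refine ⟨MemLp.zero, MemLp.zero, fun _ _ => 0, ⟨fun _ => ⟨⟨0, ?_⟩, MemLp.zero⟩, ?_⟩, ?_⟩
        · exact LipschitzWith.const 0
        · simp
        · simp
      refine der_congr h0 ?_ ?_
      · filter_upwards [e1] with x hx
        show 0 = (cL f h.1 x).im
        rw [hx]; rfl
      · filter_upwards [e2] with x hx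
        show 0 = (cL g h.2.1 x).im
        rw [hx]; rfl⟩

lemma mkV_fst (hw : Weight w) {f g : ℝ → ℝ} (h : Der w f g) : (mkV hw h).1.fst = cL f h.1 := rfl

lemma mkV_snd (hw : Weight w) {f g : ℝ → ℝ} (h : Der w f g) : (mkV hw h).1.snd = cL g h.2.1 := rfl

lemma pr_mkV (hw : Weight w) {f g : ℝ → ℝ} (h : Der w f g) : pr w hw (mkV hw h) = cL f h.1 := rfl

lemma pr_dense (hw : Weight w) : DenseRange (pr w hw) := by
  have h : (LinearMap.range (pr w hw).toLinearMap)ᗮ = ⊥ := by
    rw [Submodule.eq_bot_iff]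
    intro h hh
    rw [Submodule.mem_orthogonal] at hh
    have key : ∀ᵐ x ∂(mu w), h x = 0 := by
      have : IsLocallyFiniteMeasure (mu w) := by
        refine ⟨fun x => ⟨ball x 1, ball_mem_nhds x one_pos, ?_⟩⟩
        exact (mu_ball_le hw x 1).trans_lt ENNReal.ofReal_lt_top
      refine ae_eq_zero_of_integral_contDiff_smul_eq_zero ?_ fun ψ hψ hc => ?_
      · exact (Lp.memLp h).locallyIntegrable (by norm_num)
      · have hl : IsLip ψ := by
          obtain ⟨C, hC⟩ := ContDiff.lipschitzWith_of_hasCompactSupport hc hψ (by simp)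
          exact ⟨C, hC⟩
        have hm : MemLp ψ 2 (mu w) := memLp_mu hw (hψ.continuous.memLp_of_hasCompactSupport hc)
        have hm' : MemLp (deriv ψ) 2 (mu w) :=
          memLp_mu hw ((hψ.continuous_deriv (by simp)).memLp_of_hasCompactSupport hc.deriv)
        have hd := Der.of_lip hl hm hm'
        have h1 := hh (pr w hw (mkV hw hd)) ⟨_, rfl⟩
        rw [pr_mkV, inner_eq] at h1
        rw [← h1]
        refine integral_congr_ae ?_
        filter_upwards [cL_ae ψ hd.1] with x hx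
        rw [hx]
        simp [mul_comm]
    refine Lp.ext ?_
    filter_upwards [key, Lp.coeFn_zero ℂ 2 (mu w)] with x a c
    rw [c, a]; rfl
  have h4 := (Submodule.topologicalClosure_eq_top_iff
    (K := LinearMap.range (pr w hw).toLinearMap)).2 h
  exact Submodule.dense_iff_topologicalClosure_eq_top.2 h4

/-- Cauchy-Schwarz -/
lemma cs_int {g : ℝ → ℝ} (hg : MemLp g 2 volume) (a b : ℝ) :
    |∫ t in a..b, g t| ≤ (eLpNorm g 2 volume).toReal * √|b - a| := by
  wlog hab : a ≤ b with H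
  · have := H hg b a (le_of_not_ge hab)
    rwa [intervalIntegral.integral_symm, abs_neg, abs_sub_comm] at this
  rw [intervalIntegral.integral_of_le hab, abs_of_nonneg (sub_nonneg.2 hab)]
  have h1 := eLpNorm_le_eLpNorm_mul_rpow_measure_univ (p := 1) (q := 2)
    (μ := volume.restrict (Ioc a b)) (f := g) (by norm_num) hg.1.restrict
  have h3 : (volume.restrict (Ioc a b)) univ = ENNReal.ofReal (b - a) := by simp
  have h4 : (1 / (1 : ℝ≥0∞).toReal - 1 / (2 : ℝ≥0∞).toReal) = (1 / 2 : ℝ) := by norm_num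
  rw [h3, h4] at h1
  have h2 : eLpNorm g 2 (volume.restrict (Ioc a b)) ≤ eLpNorm g 2 volume :=
    eLpNorm_mono_measure _ Measure.restrict_le_self
  have h5 : eLpNorm g 1 (volume.restrict (Ioc a b)) ≤
      eLpNorm g 2 volume * ENNReal.ofReal (b - a) ^ (1 / 2 : ℝ) :=
    h1.trans (mul_le_mul_left h2 _)
  have h6 : ‖∫ t in Ioc a b, g t‖ₑ ≤ eLpNorm g 1 (volume.restrict (Ioc a b)) := by
    rw [eLpNorm_one_eq_lintegral_enorm]
    exact enorm_integral_le_lintegral_enorm _
  have h7 := h6.trans h5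
  have h8 : ENNReal.ofReal (b - a) ^ (1 / 2 : ℝ) = ENNReal.ofReal √(b - a) := by
    rw [ENNReal.ofReal_rpow_of_nonneg (sub_nonneg.2 hab) (by norm_num), ← Real.sqrt_eq_rpow]
  rw [h8] at h7
  have h9 : eLpNorm g 2 volume * ENNReal.ofReal √(b - a) ≠ ∞ :=
    ENNReal.mul_ne_top hg.2.ne ENNReal.ofReal_ne_top
  have h10 := ENNReal.toReal_mono h9 h7
  rw [ENNReal.toReal_mul, ENNReal.toReal_ofReal (Real.sqrt_nonneg _), toReal_enorm,
    Real.norm_eq_abs] at h10
  exact h10

lemma der_rep (hw : Weight w) {f g : ℝ → ℝ} (h : Der w f g) :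
    ∃ F : ℝ → ℝ, Continuous F ∧ (∀ᵐ x, f x = F x) ∧ ∀ x y, F y - F x = ∫ t in x..y, g t := by
  obtain ⟨x₀, hx₀⟩ := (h.ftc hw).exists
  refine ⟨fun y => f x₀ + ∫ t in x₀..y, g t, ?_, ?_, fun x y => ?_⟩
  · exact continuous_const.add
      (intervalIntegral.continuous_primitive (fun a b => memLp_iint hw h.2.1 a b) x₀)
  · filter_upwards [hx₀] with y hy
    rw [← hy]; ring
  · have := intervalIntegral.integral_interval_sub_left (memLp_iint hw h.2.1 x₀ y)
      (memLp_iint hw h.2.1 x₀ x)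
    rw [← this]; ring

lemma eLpNorm_re_le (hw : Weight w) (g : HH w) (φ : ℂ → ℝ) (h0 : ∀ z, ‖φ z‖ ≤ ‖z‖) :
    (eLpNorm (fun x => φ (g x)) 2 volume).toReal ≤ ‖g‖ := by
  rw [Lp.norm_def]
  refine ENNReal.toReal_mono (Lp.memLp g).2.ne ?_
  refine (eLpNorm_mono_measure _ (vol_le hw)).trans ?_
  exact eLpNorm_mono fun x => h0 _

lemma exists_rep (hw : Weight w) (v : VV w hw) : ∃ F : ℝ → ℂ, Continuous F ∧
    (v.1.fst =ᵐ[mu w] F) ∧ ∀ x y, ‖F y - F x‖ ≤ 2 * ‖v‖ * √|y - x| := by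
  obtain ⟨F, hF, hF2, hF3⟩ := der_rep hw v.2.1
  obtain ⟨G, hG, hG2, hG3⟩ := der_rep hw v.2.2
  refine ⟨fun x => (F x : ℂ) + (G x : ℂ) * Complex.I, by fun_prop, ?_, fun x y => ?_⟩
  · filter_upwards [(ae_iff_vol hw).2 hF2, (ae_iff_vol hw).2 hG2] with x h1 h2
    rw [← h1, ← h2, Complex.re_add_im]
  · have a1 : |F y - F x| ≤ ‖v‖ * √|y - x| := by
      rw [hF3]
      refine (cs_int (memLp_vol hw v.2.1.2.1) x y).trans ?_
      refine mul_le_mul_of_nonneg_right ?_ (Real.sqrt_nonneg _)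
      exact (eLpNorm_re_le hw v.1.snd Complex.re fun z => Complex.abs_re_le_norm z).trans
        (norm_snd_le hw v)
    have a2 : |G y - G x| ≤ ‖v‖ * √|y - x| := by
      rw [hG3]
      refine (cs_int (memLp_vol hw v.2.2.2.1) x y).trans ?_
      refine mul_le_mul_of_nonneg_right ?_ (Real.sqrt_nonneg _)
      exact (eLpNorm_re_le hw v.1.snd Complex.im fun z => Complex.abs_im_le_norm z).trans
        (norm_snd_le hw v)
    have e : ((F y : ℂ) + (G y : ℂ) * Complex.I) - ((F x : ℂ) + (G x : ℂ) * Complex.I) =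
        ((F y - F x : ℝ) : ℂ) + ((G y - G x : ℝ) : ℂ) * Complex.I := by
      push_cast; ring
    show ‖((F y : ℂ) + (G y : ℂ) * Complex.I) - ((F x : ℂ) + (G x : ℂ) * Complex.I)‖ ≤ _
    rw [e]
    refine (norm_add_le _ _).trans ?_
    rw [norm_mul, Complex.norm_I, mul_one, Complex.norm_real, Complex.norm_real,
      Real.norm_eq_abs, Real.norm_eq_abs]
    linarith

/-- the continuous representative -/
noncomputable def rep (hw : Weight w) (v : VV w hw) : ℝ → ℂ := (exists_rep hw v).choose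

lemma rep_cont (hw : Weight w) (v : VV w hw) : Continuous (rep hw v) :=
  (exists_rep hw v).choose_spec.1

lemma rep_ae (hw : Weight w) (v : VV w hw) : v.1.fst =ᵐ[mu w] rep hw v :=
  (exists_rep hw v).choose_spec.2.1

lemma rep_holder (hw : Weight w) (v : VV w hw) (x y : ℝ) :
    ‖rep hw v y - rep hw v x‖ ≤ 2 * ‖v‖ * √|y - x| :=
  (exists_rep hw v).choose_spec.2.2 x y

lemma cont_ext (hw : Weight w) {F G : ℝ → ℂ} (hF : Continuous F) (hG : Continuous G)
    (h : F =ᵐ[mu w] G) : F = G := by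
  have h1 : F =ᵐ[volume] G := (ae_iff_vol hw).1 h
  exact (Continuous.ae_eq_iff_eq volume hF hG).1 h1

lemma rep_unique (hw : Weight w) (v : VV w hw) {F : ℝ → ℂ} (hF : Continuous F)
    (h : v.1.fst =ᵐ[mu w] F) : rep hw v = F :=
  cont_ext hw (rep_cont hw v) hF ((rep_ae hw v).symm.trans h)

lemma rep_bound (hw : Weight w) (v : VV w hw) (x : ℝ) : ‖rep hw v x‖ ≤ 4 * ‖v‖ := by
  have h1 : ∀ y ∈ Ioc x (x + 1), ‖rep hw v x‖ ^ 2 ≤ 2 * ‖rep hw v y‖ ^ 2 + 8 * ‖v‖ ^ 2 := by
    intro y hy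
    have h2 := rep_holder hw v y x
    have h3 : √|x - y| ≤ 1 := by
      rw [Real.sqrt_le_one, abs_le]
      constructor <;> linarith [hy.1, hy.2]
    have h4 : ‖rep hw v x‖ ≤ ‖rep hw v y‖ + 2 * ‖v‖ := by
      have h5 : ‖rep hw v x‖ ≤ ‖rep hw v y‖ + ‖rep hw v x - rep hw v y‖ := by
        have := norm_add_le (rep hw v y) (rep hw v x - rep hw v y)
        rwa [add_sub_cancel] at this
      have h6 : 2 * ‖v‖ * √|x - y| ≤ 2 * ‖v‖ * 1 :=
        mul_le_mul_of_nonneg_left h3 (by positivity)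
      linarith
    have h7 := norm_nonneg (rep hw v x)
    have h8 := norm_nonneg (rep hw v y)
    have h9 := norm_nonneg v
    nlinarith [sq_nonneg (‖rep hw v y‖ - 2 * ‖v‖)]
  have hi : Integrable (fun y => ‖rep hw v y‖ ^ 2) (mu w) := by
    refine (norm_sq_int v.1.fst).congr ?_
    filter_upwards [rep_ae hw v] with y hy
    rw [hy]
  have hiv : Integrable (fun y => ‖rep hw v y‖ ^ 2) volume := hi.mono_measure (vol_le hw)
  have h2 : ∫ _ in Ioc x (x + 1), ‖rep hw v x‖ ^ 2 ≤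
      ∫ y in Ioc x (x + 1), (2 * ‖rep hw v y‖ ^ 2 + 8 * ‖v‖ ^ 2) := by
    refine setIntegral_mono_on ?_ ?_ measurableSet_Ioc h1
    · exact integrableOn_const (by simp)
    · exact (hiv.const_mul 2).integrableOn.add (integrableOn_const (by simp))
  rw [integral_add (hiv.const_mul 2).integrableOn (integrableOn_const (by simp)),
    setIntegral_const, setIntegral_const, integral_const_mul] at h2
  have h3 : (volume.real (Ioc x (x + 1))) = 1 := by simp
  rw [h3, one_smul, one_smul] at h2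
  have h4 : ∫ y in Ioc x (x + 1), ‖rep hw v y‖ ^ 2 ≤ ‖v‖ ^ 2 := by
    calc ∫ y in Ioc x (x + 1), ‖rep hw v y‖ ^ 2 ≤ ∫ y, ‖rep hw v y‖ ^ 2 :=
          setIntegral_le_integral hiv (Eventually.of_forall fun y => by positivity)
      _ ≤ ∫ y, ‖rep hw v y‖ ^ 2 ∂(mu w) :=
          integral_mono_measure (vol_le hw) (Eventually.of_forall fun y => by positivity) hi
      _ = ‖v.1.fst‖ ^ 2 := by
          rw [norm_sq_eq]
          refine integral_congr_ae ?_
          filter_upwards [rep_ae hw v] with y hy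
          rw [hy]
      _ ≤ ‖v‖ ^ 2 := pow_le_pow_left₀ (norm_nonneg _) (norm_fst_le hw v) 2
  refine le_of_sq_le_sq ?_ (by positivity)
  nlinarith [sq_nonneg ‖v‖]

/-- evaluation at `x` -/
noncomputable def evl (hw : Weight w) (x : ℝ) : VV w hw →ₗ[ℂ] ℂ where
  toFun v := rep hw v x
  map_add' u v := by
    have h : rep hw (u + v) = fun y => rep hw u y + rep hw v y := by
      refine rep_unique hw _ ((rep_cont hw u).add (rep_cont hw v)) ?_
      have e1 : (u + v : VV w hw).1.fst =ᵐ[mu w] fun x => u.1.fst x + v.1.fst x :=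
        Lp.coeFn_add _ _
      filter_upwards [e1, rep_ae hw u, rep_ae hw v] with y a b c
      rw [a, b, c]
    rw [h]
  map_smul' c v := by
    have h : rep hw (c • v) = fun y => c * rep hw v y := by
      refine rep_unique hw _ (continuous_const.mul (rep_cont hw v)) ?_
      have e1 : (c • v : VV w hw).1.fst =ᵐ[mu w] fun x => c * v.1.fst x :=
        Lp.coeFn_smul _ _
      filter_upwards [e1, rep_ae hw v] with y a b
      rw [a, b]
    rw [h]; rfl

/-- evaluation at `x` as a bounded functional -/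
noncomputable def evc (hw : Weight w) (x : ℝ) : VV w hw →L[ℂ] ℂ :=
  (evl hw x).mkContinuous 4 fun v => rep_bound hw v x

/-- the vector representing the evaluation at `x` -/
noncomputable def ee (hw : Weight w) (x : ℝ) : VV w hw :=
  (InnerProductSpace.toDual ℂ (VV w hw)).symm (evc hw x)

lemma inner_ee (hw : Weight w) (x : ℝ) (v : VV w hw) : ⟪ee hw x, v⟫_ℂ = rep hw v x := by
  rw [ee, InnerProductSpace.toDual_symm_apply]
  rfl

lemma ee_norm (hw : Weight w) (x : ℝ) : ‖ee hw x‖ ≤ 4 := by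
  have h1 : ‖ee hw x‖ ^ 2 ≤ 4 * ‖ee hw x‖ := by
    have h2 : ((‖ee hw x‖ ^ 2 : ℝ) : ℂ) = rep hw (ee hw x) x :=
      (self_inner _).trans (inner_ee hw x _)
    have h3 := rep_bound hw (ee hw x) x
    rw [← h2, Complex.norm_real, Real.norm_of_nonneg (sq_nonneg _)] at h3
    exact h3
  nlinarith [norm_nonneg (ee hw x)]

lemma ee_holder (hw : Weight w) (x y : ℝ) : ‖ee hw y - ee hw x‖ ≤ 2 * √|y - x| := by
  set z := ee hw y - ee hw x with hz
  have h1 : ‖z‖ ^ 2 ≤ 2 * ‖z‖ * √|y - x| := by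
    have h2 : ((‖z‖ ^ 2 : ℝ) : ℂ) = rep hw z y - rep hw z x := by
      rw [← inner_ee, ← inner_ee]
      exact (self_inner z).trans (inner_sub_left _ _ _)
    have h3 := rep_holder hw z x y
    rw [← h2, Complex.norm_real, Real.norm_of_nonneg (sq_nonneg _)] at h3
    exact h3
  rcases (norm_nonneg z).eq_or_lt with h | h
  · rw [← h]; positivity
  · have : ‖z‖ * ‖z‖ ≤ ‖z‖ * (2 * √|y - x|) := by nlinarith
    exact le_of_mul_le_mul_left this h

lemma ee_cont (hw : Weight w) : Continuous (ee hw) := by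
  rw [continuous_iff_continuousAt]
  intro x
  rw [ContinuousAt, tendsto_iff_norm_sub_tendsto_zero]
  have h0 : Continuous fun y : ℝ => 2 * √|y - x| := by fun_prop
  have h1 := h0.tendsto x
  simp only [sub_self, abs_zero, Real.sqrt_zero, mul_zero] at h1
  exact squeeze_zero (fun _ => norm_nonneg _) (fun y => ee_holder hw x y) h1

end Pool.Agent.Helper72.HK
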