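import Pool.Agent.Helper72.HK.Defs
import Pool.Graph.R_pool_sql_team_seeded_63374d34.N288.MM.Final

/-!
Uniqueness of the heat flow and of the heat kernel.
-/

set_option autoImplicit false

open MeasureTheory Filter Topology Set Metric
open scoped ENNReal NNReal InnerProductSpace
open Pool.Agent.N288.MM

namespace Pool.Agent.Helper72.HK

open Classical in
/-- the curve in `L²` -/
noncomputable def crv (S : Space) (u : ℝ → S.X → ℝ) (h : ∀ t, 0 < t → MemLp (u t) 2 S.m) (t : ℝ) :
    Lp ℝ 2 S.m := if ht : 0 < t then (h t ht).toLp (u t) else 0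

lemma crv_pos (S : Space) (u : ℝ → S.X → ℝ) (h : ∀ t, 0 < t → MemLp (u t) 2 S.m) {t : ℝ}
    (ht : 0 < t) : crv S u h t = (h t ht).toLp (u t) := dif_pos ht

lemma crv_ae (S : Space) (u : ℝ → S.X → ℝ) (h : ∀ t, 0 < t → MemLp (u t) 2 S.m) {t : ℝ}
    (ht : 0 < t) : crv S u h t =ᵐ[S.m] u t := by
  rw [crv_pos S u h ht]; exact MemLp.coeFn_toLp _

lemma crv_deriv (S : Space) (u : ℝ → S.X → ℝ) (h : ∀ t, 0 < t → MemLp (u t) 2 S.m) {t : ℝ}
    (ht : 0 < t) {v : S.X → ℝ} (hv : MemLp v 2 S.m)
    (hd : Tendsto (fun h => eLpNorm (fun x => (u (t + h) x - u t x) / h - v x) 2 S.m)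
      (𝓝[≠] 0) (𝓝 0)) : HasDerivAt (crv S u h) (hv.toLp v) t := by
  rw [hasDerivAt_iff_tendsto_slope_zero, tendsto_iff_edist_tendsto_0]
  refine hd.congr' ?_
  have h3 : ∀ᶠ h : ℝ in 𝓝[≠] 0, 0 < t + h := by
    have : ∀ᶠ h : ℝ in 𝓝 0, -t < h := lt_mem_nhds (by linarith)
    filter_upwards [this.filter_mono nhdsWithin_le_nhds] with h hh
    linarith
  filter_upwards [h3] with k hk
  rw [Lp.edist_def]
  refine eLpNorm_congr_ae ?_
  filter_upwards [Lp.coeFn_smul k⁻¹ (crv S u h (t + k) - crv S u h t),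
    Lp.coeFn_sub (crv S u h (t + k)) (crv S u h t), crv_ae S u h ht, crv_ae S u h hk,
    MemLp.coeFn_toLp hv] with x a b c d e
  rw [Pi.sub_apply, a, Pi.smul_apply, b, Pi.sub_apply, c, d, e, smul_eq_mul]
  ring

lemma flow_unique {S : Space} {f : S.X → ℝ} {u u' : ℝ → S.X → ℝ} (h : IsHeatFlow S f u)
    (h' : IsHeatFlow S f u') (hf : AEStronglyMeasurable f S.m) {t : ℝ} (ht : 0 < t) :
    u t =ᵐ[S.m] u' t := by
  set Z : ℝ → Lp ℝ 2 S.m := fun s => crv S u h.memLp s - crv S u' h'.memLp s with hZ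
  have hder : ∀ s, 0 < s → ∃ c, c ≤ 0 ∧ HasDerivAt (fun s => ‖Z s‖ ^ 2) c s := by
    intro s hs
    obtain ⟨v, hv, hd, hC, hi⟩ := h.flow s hs
    obtain ⟨v', hv', hd', hC', hi'⟩ := h'.flow s hs
    have d1 := (crv_deriv S u h.memLp hs hv hd).sub (crv_deriv S u' h'.memLp hs hv' hd')
    have d2 := d1.norm_sq
    refine ⟨_, ?_, d2⟩
    have i1 := hi (u' s) (h'.memLp s hs) hC'
    have i2 := hi' (u s) (h.memLp s hs) hC
    have e : ⟪(crv S u h.memLp - crv S u' h'.memLp) s, hv.toLp v - hv'.toLp v'⟫_ℝ =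
        -(∫ x, v x * (u' s x - u s x) ∂S.m) - ∫ x, v' x * (u s x - u' s x) ∂S.m := by
      have j1 : Integrable (fun x => v x * (u' s x - u s x)) S.m :=
        hv.integrable_mul ((h'.memLp s hs).sub (h.memLp s hs))
      have j2 : Integrable (fun x => v' x * (u s x - u' s x)) S.m :=
        hv'.integrable_mul ((h.memLp s hs).sub (h'.memLp s hs))
      have j3 : Integrable (fun x => -(v x * (u' s x - u s x))) S.m := j1.neg
      rw [L2.inner_def, ← integral_neg, ← integral_sub j3 j2]
      refine integral_congr_ae ?_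
      have e0 : (crv S u h.memLp - crv S u' h'.memLp) s =
        crv S u h.memLp s - crv S u' h'.memLp s := rfl
      rw [e0]
      filter_upwards [Lp.coeFn_sub (crv S u h.memLp s) (crv S u' h'.memLp s),
        Lp.coeFn_sub (hv.toLp v) (hv'.toLp v'), crv_ae S u h.memLp hs, crv_ae S u' h'.memLp hs,
        MemLp.coeFn_toLp hv, MemLp.coeFn_toLp hv'] with x a1 a2 a3 a4 a5 a6
      rw [a1, a2, Pi.sub_apply, Pi.sub_apply, a3, a4, a5, a6]
      simp only [RCLike.inner_apply, conj_trivial]
      ring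
    rw [e]
    linarith
  have hanti : AntitoneOn (fun s => ‖Z s‖ ^ 2) (Ioi 0) := by
    refine antitoneOn_of_deriv_nonpos (convex_Ioi 0) ?_ ?_ ?_
    · intro s hs
      obtain ⟨c, -, hc⟩ := hder s hs
      exact hc.continuousAt.continuousWithinAt
    · intro s hs
      rw [interior_Ioi] at hs
      obtain ⟨c, -, hc⟩ := hder s hs
      exact hc.differentiableAt.differentiableWithinAt
    · intro s hs
      rw [interior_Ioi] at hs
      obtain ⟨c, hc0, hc⟩ := hder s hs
      rw [hc.deriv]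
      exact hc0
  have hlim : Tendsto (fun s => ‖Z s‖ ^ 2) (𝓝[>] 0) (𝓝 0) := by
    have h0 := h.init.add h'.init
    rw [add_zero] at h0
    have h1 : Tendsto (fun s => ‖Z s‖ₑ) (𝓝[>] 0) (𝓝 0) := by
      refine tendsto_of_tendsto_of_tendsto_of_le_of_le' tendsto_const_nhds h0
        (Eventually.of_forall fun _ => bot_le) ?_
      filter_upwards [self_mem_nhdsWithin] with s hs
      have hs : 0 < s := hs
      rw [hZ, ← edist_eq_enorm_sub, Lp.edist_def]
      have e : eLpNorm (⇑(crv S u h.memLp s) - ⇑(crv S u' h'.memLp s)) 2 S.m =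
          eLpNorm ((fun x => u s x - f x) - fun x => u' s x - f x) 2 S.m := by
        refine eLpNorm_congr_ae ?_
        filter_upwards [crv_ae S u h.memLp hs, crv_ae S u' h'.memLp hs] with x a b
        rw [Pi.sub_apply, Pi.sub_apply, a, b]
        ring
      rw [e]
      exact eLpNorm_sub_le ((h.memLp s hs).1.sub hf) ((h'.memLp s hs).1.sub hf) (by norm_num)
    have h2 : Tendsto (fun s => ‖Z s‖) (𝓝[>] 0) (𝓝 0) := by
      have := (ENNReal.tendsto_toReal ENNReal.zero_ne_top).comp h1
      simpa [Function.comp_def, toReal_enorm] using this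
    have := h2.pow 2
    simpa using this
  have hz : ‖Z t‖ ^ 2 ≤ 0 := by
    refine ge_of_tendsto hlim ?_
    have : ∀ᶠ s : ℝ in 𝓝[>] 0, s < t := (gt_mem_nhds ht).filter_mono nhdsWithin_le_nhds
    filter_upwards [self_mem_nhdsWithin, this] with s hs hst
    exact hanti hs (show (0 : ℝ) < t from ht) hst.le
  have hz2 : Z t = 0 := by
    have := norm_nonneg (Z t)
    exact norm_eq_zero.1 (by nlinarith)
  have hz3 : crv S u h.memLp t = crv S u' h'.memLp t := sub_eq_zero.1 hz2
  have e1 := crv_ae S u h.memLp ht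
  have e2 := crv_ae S u' h'.memLp ht
  rw [hz3] at e1
  exact e1.symm.trans e2

/-- a continuous function whose integrals over the intervals with rational endpoints vanish is `0` -/
lemma zero_of_ints {w : ℝ → ℝ} (hw : Weight w) {d : ℝ → ℝ} (hd : Continuous d)
    (h : ∀ a b : ℚ, ∫ y in Ioc (a : ℝ) b, d y ∂(mu w) = 0) : ∀ y, d y = 0 := by
  have key : ∀ e : ℝ → ℝ, Continuous e → (∀ a b : ℚ, ∫ y in Ioc (a : ℝ) b, e y ∂(mu w) = 0) →
      ∀ y, ¬ 0 < e y := by
    intro e he h y hy
    obtain ⟨δ, hδ, hδ2⟩ := Metric.continuousAt_iff.1 he.continuousAt (e y / 2) (half_pos hy)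
    obtain ⟨a, ha1, ha2⟩ := exists_rat_btwn (show y - δ < y by linarith)
    obtain ⟨b, hb1, hb2⟩ := exists_rat_btwn (show y < y + δ by linarith)
    have hfin : mu w (Ioc (a : ℝ) b) ≠ ∞ := by
      have h1 := le_vol hw (Ioc (a : ℝ) b)
      refine (h1.trans_lt ?_).ne
      simp only [Measure.smul_apply, smul_eq_mul, Real.volume_Ioc]
      exact ENNReal.mul_lt_top (by simp) ENNReal.ofReal_lt_top
    have hint : IntegrableOn e (Ioc (a : ℝ) b) (mu w) := by
      have h1 : IntegrableOn e (Ioc (a : ℝ) b) ((2 : ℝ≥0∞) • (volume : Measure ℝ)) := by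
        have h2 : IntegrableOn e (Ioc (a : ℝ) b) volume :=
          (he.integrableOn_Icc (a := (a : ℝ)) (b := b)).mono_set Ioc_subset_Icc_self
        unfold IntegrableOn at h2 ⊢
        rw [Measure.restrict_smul]
        exact h2.smul_measure (by norm_num)
      exact h1.mono_measure (le_vol hw)
    have h1 : ∫ _ in Ioc (a : ℝ) b, e y / 2 ∂(mu w) ≤ ∫ z in Ioc (a : ℝ) b, e z ∂(mu w) := by
      refine setIntegral_mono_on (integrableOn_const hfin) hint measurableSet_Ioc fun z hz => ?_
      have h3 : dist z y < δ := by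
        rw [Real.dist_eq, abs_lt]
        constructor <;> linarith [hz.1, hz.2]
      have h4 := hδ2 h3
      rw [Real.dist_eq] at h4
      linarith [(abs_lt.1 h4).1]
    rw [h a b, setIntegral_const, smul_eq_mul] at h1
    have h5 : 0 < (mu w).real (Ioc (a : ℝ) b) := by
      refine ENNReal.toReal_pos ?_ hfin
      have h6 := vol_le hw (Ioc (a : ℝ) b)
      refine (lt_of_lt_of_le ?_ h6).ne'
      rw [Real.volume_Ioc]
      simp only [ENNReal.ofReal_pos]
      linarith
    nlinarith
  intro y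
  have h1 := key d hd h y
  have h2 := key (fun y => -d y) hd.neg (fun a b => by rw [integral_neg, h a b, neg_zero]) y
  linarith [not_lt.1 h1, not_lt.1 h2]

/-- uniqueness of the heat kernel of a weighted line -/
lemma kernel_unique {w : ℝ → ℝ} (hw : Weight w) {p p' : ℝ → ℝ → ℝ → ℝ}
    (hp : IsHeatKernel (line w hw) p) (hp' : IsHeatKernel (line w hw) p') {t : ℝ} (ht : 0 < t)
    (x y : ℝ) : p t x y = p' t x y := by
  have hc : Continuous fun z : ℝ × ℝ => p t z.1 z.2 := hp.cont t ht
  have hc' : Continuous fun z : ℝ × ℝ => p' t z.1 z.2 := hp'.cont t ht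
  have hae : ∀ a b : ℚ, ∀ᵐ x ∂(mu w),
      ∫ y in Ioc (a : ℝ) b, (p t x y - p' t x y) ∂(mu w) = 0 := by
    intro a b
    set f : ℝ → ℝ := (Ioc (a : ℝ) b).indicator fun _ => 1 with hfdef
    have hf : MemLp f 2 (mu w) := by
      refine memLp_mu hw ?_
      exact memLp_indicator_const 2 measurableSet_Ioc 1 (Or.inr (by simp))
    have h1 := flow_unique (hp.flow f hf) (hp'.flow f hf) hf.1 ht
    filter_upwards [h1] with x hx
    have hx : ∫ y, p t x y * f y ∂(mu w) = ∫ y, p' t x y * f y ∂(mu w) := hx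
    have i1 : Integrable (fun y => p t x y * f y) (mu w) := hp.int f hf t ht x
    have i2 : Integrable (fun y => p' t x y * f y) (mu w) := hp'.int f hf t ht x
    have h2 := integral_sub i1 i2
    rw [hx, sub_self] at h2
    rw [← integral_indicator measurableSet_Ioc, ← h2]
    refine integral_congr_ae (Eventually.of_forall fun y => ?_)
    show (Ioc (a : ℝ) b).indicator (fun y => p t x y - p' t x y) y =
      p t x y * f y - p' t x y * f y
    by_cases hy : y ∈ Ioc (a : ℝ) b
    · rw [indicator_of_mem hy, hfdef, indicator_of_mem hy]; ring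
    · rw [indicator_of_notMem hy, hfdef, indicator_of_notMem hy]; ring
  have hae2 : ∀ᵐ x, ∀ y, p t x y - p' t x y = 0 := by
    have h1 : ∀ᵐ x ∂(mu w), ∀ a b : ℚ,
        ∫ y in Ioc (a : ℝ) b, (p t x y - p' t x y) ∂(mu w) = 0 := by
      rw [ae_all_iff]; intro a
      rw [ae_all_iff]; intro b
      exact hae a b
    filter_upwards [(ae_iff_vol hw).1 h1] with x hx
    refine zero_of_ints hw ?_ hx
    exact (hc.comp (Continuous.prodMk_right x)).sub (hc'.comp (Continuous.prodMk_right x))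
  have h2 : (fun x => p t x y) =ᵐ[volume] fun x => p' t x y := by
    filter_upwards [hae2] with x hx
    exact sub_eq_zero.1 (hx y)
  have h3 : Continuous fun x : ℝ => p t x y := hc.comp (Continuous.prodMk_left y)
  have h4 : Continuous fun x : ℝ => p' t x y := hc'.comp (Continuous.prodMk_left y)
  exact congr_fun ((Continuous.ae_eq_iff_eq volume h3 h4).1 h2) x

end Pool.Agent.Helper72.HK
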